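import Pool.Agent.Zk97.OG.Chk

set_option autoImplicit false

namespace Zk97.OG

theorem hF_id (n A B d f : ℤ) (h : A + B = f + 4) :
    hF n A B 1 1 d = (n - 1) * (n - 2) * (n - 3) * (n - f) -
      2 * (d * (n - 1 - d)) * ((n - 1) ^ 2 - 6 * (n - 1) + 7) - 2 * (d * (n - 1 - d)) ^ 2 := by
  have : A = f + 4 - B := by linarith
  subst this
  unfold hF
  ring

theorem mono_P (X P P0 : ℤ) (hX : 0 ≤ X) (h0 : 0 ≤ P0) (h : P0 ≤ P) :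
    2 * P0 * X + 2 * P0 ^ 2 ≤ 2 * P * X + 2 * P ^ 2 := by
  have h1 : P0 * X ≤ P * X := mul_le_mul_of_nonneg_right h hX
  have h2 : P0 ^ 2 ≤ P ^ 2 := pow_le_pow_left₀ h0 h 2
  linarith

theorem uni0 (k d A B : ℤ) (hk : 7 ≤ k) (hAB : A + B = 2 * k + 4) (h1 : 4 * k ≤ d + 3 * k + 1)
    (h2 : d + 4 * k ≤ 6 * k) : hF (3 * k) A B 1 1 d < 0 := by
  rw [hF_id _ _ _ _ (2 * k) hAB]
  have hP : 2 * k * (k - 1) ≤ d * (3 * k - 1 - d) := by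
    nlinarith [mul_nonneg (by linarith : 0 ≤ d - (k - 1)) (by linarith : 0 ≤ 2 * k - d)]
  have hX : 0 ≤ (3 * k - 1) ^ 2 - 6 * (3 * k - 1) + 7 := by nlinarith
  have hP0 : 0 ≤ 2 * k * (k - 1) := by nlinarith
  have h3 := mono_P _ _ _ hX hP0 hP
  obtain ⟨j, rfl⟩ : ∃ j, k = j + 7 := ⟨k - 7, by ring⟩
  have hj : 0 ≤ j := by linarith
  have h4 : (3 * (j + 7) - 1) * (3 * (j + 7) - 2) * (3 * (j + 7) - 3) * (3 * (j + 7) - 2 * (j + 7)) <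
      2 * (2 * (j + 7) * (j + 7 - 1)) * ((3 * (j + 7) - 1) ^ 2 - 6 * (3 * (j + 7) - 1) + 7) +
      2 * (2 * (j + 7) * (j + 7 - 1)) ^ 2 := by
    have : 0 < 2 * (2 * (j + 7) * (j + 7 - 1)) * ((3 * (j + 7) - 1) ^ 2 - 6 * (3 * (j + 7) - 1) + 7) +
      2 * (2 * (j + 7) * (j + 7 - 1)) ^ 2 -
      (3 * (j + 7) - 1) * (3 * (j + 7) - 2) * (3 * (j + 7) - 3) * (3 * (j + 7) - 2 * (j + 7)) := by
      ring_nf
      positivity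
    linarith
  linarith

theorem uni1 (k d A B : ℤ) (hk : 7 ≤ k) (hAB : A + B = 2 * k + 4)
    (h1 : 4 * k ≤ d + (3 * k + 1) + 1)
    (h2 : d + 4 * k ≤ 2 * (3 * k + 1)) : hF (3 * k + 1) A B 1 1 d < 0 := by
  rw [hF_id _ _ _ _ (2 * k) hAB]
  have hP : 2 * (k + 1) * (k - 2) ≤ d * (3 * k + 1 - 1 - d) := by
    nlinarith [mul_nonneg (by linarith : 0 ≤ d - (k - 2)) (by linarith : 0 ≤ 2 * k + 2 - d)]
  have hX : 0 ≤ (3 * k + 1 - 1) ^ 2 - 6 * (3 * k + 1 - 1) + 7 := by nlinarith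
  have hP0 : 0 ≤ 2 * (k + 1) * (k - 2) := by nlinarith
  have h3 := mono_P _ _ _ hX hP0 hP
  obtain ⟨j, rfl⟩ : ∃ j, k = j + 7 := ⟨k - 7, by ring⟩
  have hj : 0 ≤ j := by linarith
  have h4 : (3 * (j + 7) + 1 - 1) * (3 * (j + 7) + 1 - 2) * (3 * (j + 7) + 1 - 3) *
      (3 * (j + 7) + 1 - 2 * (j + 7)) <
      2 * (2 * (j + 7 + 1) * (j + 7 - 2)) * ((3 * (j + 7) + 1 - 1) ^ 2 - 6 * (3 * (j + 7) + 1 - 1) + 7) +
      2 * (2 * (j + 7 + 1) * (j + 7 - 2)) ^ 2 := by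
    have : 0 < 2 * (2 * (j + 7 + 1) * (j + 7 - 2)) * ((3 * (j + 7) + 1 - 1) ^ 2 -
      6 * (3 * (j + 7) + 1 - 1) + 7) +
      2 * (2 * (j + 7 + 1) * (j + 7 - 2)) ^ 2 - (3 * (j + 7) + 1 - 1) * (3 * (j + 7) + 1 - 2) *
      (3 * (j + 7) + 1 - 3) * (3 * (j + 7) + 1 - 2 * (j + 7)) := by
      ring_nf
      positivity
    linarith
  linarith

theorem uni2 (k d A B : ℤ) (hk : 6 ≤ k) (hAB : A + B = (2 * k + 1) + 4)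
    (h1 : 2 * (2 * k + 1) ≤ d + (3 * k + 2) + 1)
    (h2 : d + 2 * (2 * k + 1) ≤ 2 * (3 * k + 2)) : hF (3 * k + 2) A B 1 1 d < 0 := by
  rw [hF_id _ _ _ _ (2 * k + 1) hAB]
  have hP : 2 * (k + 1) * (k - 1) ≤ d * (3 * k + 2 - 1 - d) := by
    nlinarith [mul_nonneg (by linarith : 0 ≤ d - (k - 1)) (by linarith : 0 ≤ 2 * k + 2 - d)]
  have hX : 0 ≤ (3 * k + 2 - 1) ^ 2 - 6 * (3 * k + 2 - 1) + 7 := by nlinarith
  have hP0 : 0 ≤ 2 * (k + 1) * (k - 1) := by nlinarith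
  have h3 := mono_P _ _ _ hX hP0 hP
  obtain ⟨j, rfl⟩ : ∃ j, k = j + 6 := ⟨k - 6, by ring⟩
  have hj : 0 ≤ j := by linarith
  have h4 : (3 * (j + 6) + 2 - 1) * (3 * (j + 6) + 2 - 2) * (3 * (j + 6) + 2 - 3) *
      (3 * (j + 6) + 2 - (2 * (j + 6) + 1)) <
      2 * (2 * (j + 6 + 1) * (j + 6 - 1)) * ((3 * (j + 6) + 2 - 1) ^ 2 - 6 * (3 * (j + 6) + 2 - 1) + 7) +
      2 * (2 * (j + 6 + 1) * (j + 6 - 1)) ^ 2 := by
    have : 0 < 2 * (2 * (j + 6 + 1) * (j + 6 - 1)) * ((3 * (j + 6) + 2 - 1) ^ 2 -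
      6 * (3 * (j + 6) + 2 - 1) + 7) +
      2 * (2 * (j + 6 + 1) * (j + 6 - 1)) ^ 2 - (3 * (j + 6) + 2 - 1) * (3 * (j + 6) + 2 - 2) *
      (3 * (j + 6) + 2 - 3) * (3 * (j + 6) + 2 - (2 * (j + 6) + 1)) := by
      ring_nf
      positivity
    linarith
  linarith

end Zk97.OG
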