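import Pool.Agent.Zk97.OG.Fin
import Pool.Agent.Zk97.OG.Uni

set_option autoImplicit false
set_option linter.unusedSectionVars false

namespace Zk97.OG

open Finset

variable {V : Type} [Fintype V] [DecidableEq V]

theorem deg_lower (G : SimpleGraph V) (A B : ℕ) (hA : Cnd G A) (hB : Cnd Gᶜ B)
    (hB5 : 5 ≤ B) (hδ : ∀ v, 1 ≤ dg G v) (h4 : 4 ≤ Fintype.card V) (w : V) :
    2 * (A + B) ≤ dg G w + Fintype.card V + 9 := by
  obtain ⟨y1, y2, hy, _, _, ha, hb⟩ := W2 G A B hA hB hB5 hδ h4 w
  have := (pair_cond' G A hA y1 y2 hy).1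
  omega

theorem main5 (G : SimpleGraph V) (A B : ℕ) (hA : Cnd G A) (hB : Cnd Gᶜ B)
    (hδ : ∀ v, 1 ≤ dg G v) (hδ' : ∀ v, 1 ≤ dg Gᶜ v)
    (hAB : A + B = 2 * Fintype.card V / 3 + 4) (hB5 : 5 ≤ B) (hBA : B ≤ A)
    (hA5 : A < 2 * Fintype.card V / 3) : False := by
  classical
  have hn9 : 9 ≤ Fintype.card V := by omega
  rcases Nat.lt_or_ge (Fintype.card V) 20 with hlt | hge
  · obtain ⟨x, x', Y', Y, e1, e2, e3, e4, e5, e6, g1, g2, g3, g4⟩ :=
      four_vertices (dg G) (by omega : 4 ≤ Fintype.card V)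
    obtain ⟨k1, k2, k3, k4⟩ := extreme G A B hA hB (by omega) hB5 hδ hδ' (by omega) x x' Y' Y e1 e6 g2 g3
    have hYn : dg G Y < Fintype.card V := by
      have := dg_add G Y
      omega
    by_cases h10 : Fintype.card V = 10
    · have hA5' : A = 5 := by omega
      have hB5' : B = 5 := by omega
      subst hA5' hB5'
      have hA' : Cnd Gᶜᶜ 5 := by rwa [compl_compl]
      have hY1 := dg_add G Y
      have hex : ex10 (dg G x) (dg G x') (dg G Y') (dg G Y) = false := by
        unfold ex10
        rw [Bool.or_eq_false_iff, Bool.or_eq_false_iff]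
        refine ⟨⟨?_, ?_⟩, ?_⟩
        · by_contra hcon
          rw [Bool.not_eq_false, Bool.and_eq_true, Nat.ble_eq, Nat.ble_eq] at hcon
          have := E2 G hA hB hδ e1 hcon.1
          omega
        · by_contra hcon
          rw [Bool.not_eq_false, Bool.and_eq_true, Nat.ble_eq, Nat.ble_eq] at hcon
          have h1 := E2 Gᶜ hB hA' hδ' (x := Y) (y := Y') e6.symm (by omega)
          have h2 := dg_add G Y'
          omega
        · by_contra hcon
          rw [Bool.not_eq_false, Bool.and_eq_true, Nat.beq_eq, Nat.beq_eq] at hcon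
          obtain ⟨c1, c2⟩ := hcon
          have hYc : dg Gᶜ Y = 3 := by omega
          obtain ⟨p, hp⟩ : ((nbs G univ x).erase Y).Nonempty := by
            apply card_pos.mp
            have := pred_card_le_card_erase (s := nbs G univ x) (a := Y)
            have h3 : (nbs G univ x).card = 3 := c1
            omega
          obtain ⟨q, hq⟩ : ((nbs Gᶜ univ Y).erase x).Nonempty := by
            apply card_pos.mp
            have := pred_card_le_card_erase (s := nbs Gᶜ univ Y) (a := x)
            have h3 : (nbs Gᶜ univ Y).card = 3 := hYc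
            omega
          rw [mem_erase, mem_nbu] at hp hq
          have hp5 : dg Gᶜ p ≤ 4 := by
            have h1 := (pair_cond G 5 hB x p hp.2.ne).2 hp.2
            have h2 := dg_add G p
            omega
          have hq4 : dg G q ≤ 4 := by
            have h1 := (pair_cond Gᶜ 5 hA' Y q hq.2.ne).2 hq.2
            have h2 := dg_add G q
            omega
          have r1 : G.Adj q p := E3 G h10 hA hB hδ hq.1.symm c1 hq4 hp.2
          have r2 : Gᶜ.Adj p q := E3 Gᶜ h10 hB hA' hδ' hp.1.symm hYc hp5 hq.2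
          exact r2.2 r1.symm
      obtain ⟨l, m, hlm⟩ := chk_spec 10 5 5 LL10 ex10 chk_10 (dg G x) (dg G x') (dg G Y') (dg G Y)
        (by omega) (g1 _) (g2 _ e2.symm) (g4 _) (by omega) (by omega) (by omega) (by omega) hex
      refine deg_final G 5 5 hA hB (by omega) l m x x' Y' Y e1 e2 e3 e4 e5 e6 g2 g3 ?_
      rw [h10]; exact hlm
    · have hc := chk_all (Fintype.card V) hlt A (by omega) ⟨hn9, h10, by omega, by omega, by omega⟩
      have hBe : 2 * Fintype.card V / 3 + 4 - A = B := by omega
      rw [hBe] at hc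
      obtain ⟨l, m, hlm⟩ := chk_spec _ A B LL _ hc (dg G x) (dg G x') (dg G Y') (dg G Y)
        (by omega) (g1 _) (g2 _ e2.symm) (g4 _) (by omega) (by omega) (by omega) (by omega) rfl
      exact deg_final G A B hA hB (by omega) l m x x' Y' Y e1 e2 e3 e4 e5 e6 g2 g3 hlm
  · have h0 := sum_hF_nonneg G A B hA hB 1 1
    have hlow := deg_lower G A B hA hB hB5 hδ (by omega)
    have hup := deg_lower Gᶜ B A hB (by rwa [compl_compl]) (by omega) hδ' (by omega)
    have hneg : ∀ w ∈ (univ : Finset V), hF (Fintype.card V) A B (1 : ℕ) (1 : ℕ) (dg G w) < 0 := by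
      intro w _
      have a1 := hlow w
      have a2 := hup w
      have a3 := dg_add G w
      set n := Fintype.card V with hn
      obtain ⟨k, hk⟩ : ∃ k, n = 3 * k ∨ n = 3 * k + 1 ∨ n = 3 * k + 2 := ⟨n / 3, by omega⟩
      rw [Nat.cast_one]
      rcases hk with hk | hk | hk
      · have e1 : ((n : ℕ) : ℤ) = 3 * (k : ℤ) := by rw [hk]; push_cast; ring
        rw [e1]
        have hf : 2 * n / 3 = 2 * k := by omega
        apply uni0 (k : ℤ) (dg G w : ℤ) A B
        · have : 7 ≤ k := by omega
          exact_mod_cast this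
        · have : A + B = 2 * k + 4 := by omega
          exact_mod_cast this
        · have : 4 * k ≤ dg G w + 3 * k + 1 := by omega
          exact_mod_cast this
        · have : dg G w + 4 * k ≤ 6 * k := by omega
          exact_mod_cast this
      · have e1 : ((n : ℕ) : ℤ) = 3 * (k : ℤ) + 1 := by rw [hk]; push_cast; ring
        rw [e1]
        have hf : 2 * n / 3 = 2 * k := by omega
        apply uni1 (k : ℤ) (dg G w : ℤ) A B
        · have : 7 ≤ k := by omega
          exact_mod_cast this
        · have : A + B = 2 * k + 4 := by omega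
          exact_mod_cast this
        · have : 4 * k ≤ dg G w + (3 * k + 1) + 1 := by omega
          exact_mod_cast this
        · have : dg G w + 4 * k ≤ 2 * (3 * k + 1) := by omega
          exact_mod_cast this
      · have e1 : ((n : ℕ) : ℤ) = 3 * (k : ℤ) + 2 := by rw [hk]; push_cast; ring
        rw [e1]
        have hf : 2 * n / 3 = 2 * k + 1 := by omega
        apply uni2 (k : ℤ) (dg G w : ℤ) A B
        · have : 6 ≤ k := by omega
          exact_mod_cast this
        · have : A + B = (2 * k + 1) + 4 := by omega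
          exact_mod_cast this
        · have : 2 * (2 * k + 1) ≤ dg G w + (3 * k + 2) + 1 := by omega
          exact_mod_cast this
        · have : dg G w + 2 * (2 * k + 1) ≤ 2 * (3 * k + 2) := by omega
          exact_mod_cast this
    have hne : (univ : Finset V).Nonempty := card_pos.mp (by rw [card_univ]; omega)
    have := sum_neg hneg hne
    linarith

theorem core (G : SimpleGraph V) (hG : G.Connected) (hGc : Gᶜ.Connected) (a b : ℕ)
    (ha : Cnd G a) (hb : Cnd Gᶜ b) : a + b ≤ 2 * Fintype.card V / 3 + 3 := by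
  classical
  have hne := hG.nonempty
  have hpos : 0 < Fintype.card V := Fintype.card_pos
  have hb' : Cnd Gᶜᶜ a := by rwa [compl_compl]
  by_cases h1 : Fintype.card V = 1
  · have k1 := ha.S univ
    have k2 := hb.S univ
    simp only [card_univ, compl_univ, sum_empty, h1] at k1 k2
    omega
  have : Nontrivial V := by
    rw [← Fintype.one_lt_card_iff_nontrivial]; omega
  have hn1 : ∀ v, ∃ w, G.Adj v w := fun v => hG.preconnected.exists_adj_of_nontrivial v
  have hn2 : ∀ v, ∃ w, Gᶜ.Adj v w := fun v => hGc.preconnected.exists_adj_of_nontrivial v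
  have hδ : ∀ v, 1 ≤ dg G v := by
    intro v
    obtain ⟨w, hw⟩ := hn1 v
    exact card_pos.mpr ⟨w, (mem_nbu _ _ _).mpr hw⟩
  have hδ' : ∀ v, 1 ≤ dg Gᶜ v := by
    intro v
    obtain ⟨w, hw⟩ := hn2 v
    exact card_pos.mpr ⟨w, (mem_nbu _ _ _).mpr hw⟩
  have s1 := star_bound G a ha hn1
  have s2 := star_bound Gᶜ b hb hn2
  by_contra hcon
  push Not at hcon
  have s3 : a ≤ 2 * Fintype.card V / 3 := by omega
  have s4 : b ≤ 2 * Fintype.card V / 3 := by omega
  have s5 : 4 ≤ 2 * Fintype.card V / 3 := by omega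
  have hf4 : 6 ≤ Fintype.card V := by omega
  -- the case where one of the two values is maximal
  have four : ∀ (H : SimpleGraph V) (c d : ℕ), Cnd H c → Cnd Hᶜ d → (∀ v, ∃ w, H.Adj v w) →
      (∀ v, 1 ≤ dg H v) → (∀ v, 1 ≤ dg Hᶜ v) → 2 * Fintype.card V / 3 ≤ c → 4 ≤ d → False := by
    intro H c d hc hd hH hH1 hH2 h3 h4
    have hd4 := hd.mono h4
    by_cases h7 : Fintype.card V = 7
    · exact case7 H h7 (hc.mono (by omega)) hd4 hH1 hH2
    · refine case4 H hH ?_ ?_ hf4 h7 (hc.mono h3)
      · intro x y hxy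
        have := (pair_cond H 4 hd4 x y hxy).1
        omega
      · intro x y hxy
        have := (pair_cond H 4 hd4 x y hxy.ne).2 hxy
        omega
  by_cases ha1 : 2 * Fintype.card V / 3 ≤ a
  · exact four G a b ha hb hn1 hδ hδ' ha1 (by omega)
  by_cases hb1 : 2 * Fintype.card V / 3 ≤ b
  · exact four Gᶜ b a hb hb' hn2 hδ' (by rwa [compl_compl]) hb1 (by omega)
  have hb2 := hb.mono (show 2 * Fintype.card V / 3 + 4 - a ≤ b by omega)
  rcases le_total (2 * Fintype.card V / 3 + 4 - a) a with h | h
  · exact main5 G a _ ha hb2 hδ hδ' (by omega) (by omega) h (by omega)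
  · exact main5 Gᶜ _ a hb2 hb' hδ' (by rwa [compl_compl]) (by omega) (by omega) h (by omega)

/-- the Nordhaus–Gaddum bound for the oriented domination game -/
theorem main (G : SimpleGraph V) (hG : G.Connected) (hGc : Gᶜ.Connected) :
    ∃ k₁ k₂ : ℕ, Win G k₁ ∧ Win Gᶜ k₂ ∧ 3 * (k₁ + k₂) ≤ 2 * Fintype.card V + 9 := by
  classical
  have hw : ∀ H : SimpleGraph V, ∃ k, Win H k := by
    intro H
    refine ⟨Fintype.card V, cost_bound H univ ∅ id (by simp) _ ?_⟩
    simp [card_univ]
  have key : ∀ H : SimpleGraph V, ∃ k, Win H k ∧ Cnd H k := by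
    intro H
    refine ⟨Nat.find (hw H), Nat.find_spec (hw H), ?_⟩
    rcases Nat.eq_zero_or_pos (Nat.find (hw H)) with h | h
    · rw [h]; intro T M m _; omega
    · have h1 : ¬ Win H (Nat.find (hw H) - 1) := Nat.find_min (hw H) (by omega)
      have h2 := cnd_of_not_win H _ h1
      rwa [Nat.sub_add_cancel h] at h2
  obtain ⟨a, ha1, ha2⟩ := key G
  obtain ⟨b, hb1, hb2⟩ := key Gᶜ
  refine ⟨a, b, ha1, hb1, ?_⟩
  have := core G hG hGc a b ha2 hb2
  omega

end Zk97.OG
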