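import Pool.Agent.Zk97.OG.Mat

set_option autoImplicit false
set_option linter.unusedSectionVars false

namespace Zk97.OG

open Finset

variable {V : Type} [Fintype V] [DecidableEq V]

section
variable {G : SimpleGraph V} {m : V → V} {T : Finset V}

theorem exists_private (hT : VT G m T) (hmin : ∀ T', VT G m T' → T.card ≤ T'.card) :
    ∀ s ∈ T, ∃ u, m u = u ∧ G.Adj u s ∧ ∀ s' ∈ T, G.Adj u s' → s' = s := by
  intro s hs
  by_contra hcon
  push Not at hcon
  have h : VT G m (T.erase s) := by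
    refine ⟨fun x hx => hT.h1 x (mem_of_mem_erase hx),
      fun x hx h => hT.h2 x (mem_of_mem_erase hx) (mem_of_mem_erase h), ?_⟩
    intro u hu
    obtain ⟨x, hx, hux⟩ := hT.h3 u hu
    by_cases hxs : x = s
    · subst hxs
      obtain ⟨s', hs', h1, h2⟩ := hcon u hu hux
      exact ⟨s', mem_erase.mpr ⟨h2, hs'⟩, h1⟩
    · exact ⟨x, mem_erase.mpr ⟨hxs, hx⟩, hux⟩
  have h1 := hmin _ h
  rw [card_erase_of_mem hs] at h1
  have : 0 < T.card := card_pos.mpr ⟨s, hs⟩
  omega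

variable (hm : MaxMat G m) (hT : VT G m T) (pu : V → V)
  (hpu : ∀ s ∈ T, m (pu s) = pu s ∧ G.Adj (pu s) s ∧ ∀ s' ∈ T, G.Adj (pu s) s' → s' = s)

include hm hT hpu

theorem pu_inj {s s' : V} (hs : s ∈ T) (hs' : s' ∈ T) (h : pu s = pu s') : s = s' := by
  have h1 := (hpu s hs).2.1
  rw [h] at h1
  exact (hpu s' hs').2.2 s hs h1

theorem pu_notMem {s : V} (hs : s ∈ T) : pu s ∉ T := fun h => hT.h1 _ h (hpu s hs).1

theorem pu_ne_m {s s' : V} (hs : s ∈ T) (hs' : s' ∈ T) : pu s ≠ m s' := by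
  intro h
  have h1 := (hpu s hs).1
  rw [h, hm.1.1] at h1
  exact hT.h1 s' hs' h1.symm

theorem d_lemma {s p : V} (hs : s ∈ T) (hp : G.Adj (pu s) p) (h1 : p ≠ s) (h2 : p ≠ m s) :
    p ∈ Mo m T := by
  rw [mem_Mo]
  have h3 : m p ≠ p := fun h => max_indep hm (hpu s hs).1 h hp
  refine ⟨fun h => h1 ((hpu s hs).2.2 p h hp), h3, fun h => ?_⟩
  have h4 : m p ≠ s := by rintro h5; apply h2; rw [← h5, hm.1.1]
  have h5 : pu s ≠ pu (m p) := fun h6 => h4 (pu_inj hm hT pu hpu hs h h6).symm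
  exact aug3 hm (hpu s hs).1 (hpu _ h).1 h5 h3 hp (hpu _ h).2.1

theorem e_lemma {s p : V} (hs : s ∈ T) (hp : G.Adj (m s) p) (h1 : p ≠ s) (h2 : p ≠ pu s) :
    p ∈ Mo m T ∨ p ∈ T := by
  by_cases hpT : p ∈ T
  · right; exact hpT
  left
  rw [mem_Mo]
  have h3 : m p ≠ p := fun h =>
    aug3 hm (hpu s hs).1 h h2.symm (hT.h1 s hs) (hpu s hs).2.1 hp.symm
  refine ⟨hpT, h3, fun h => ?_⟩
  have h4 : m p ≠ s := by
    rintro h5
    have : p = m s := by rw [← h5, hm.1.1]
    exact hp.ne this.symm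
  have h5 : pu (m p) ≠ pu s := fun h6 => h4 (pu_inj hm hT pu hpu h hs h6)
  have h6 := sw_max hm (hpu s hs).1 (hT.h1 s hs) (hpu s hs).2.1
  have h7 := sw_ms hm.1 (hpu s hs).1 (hT.h1 s hs) (hpu s hs).2.1
  have h8 : sw m (pu s) s (pu (m p)) = pu (m p) := by
    rw [sw_other h5 _ (pu_ne_m hm hT pu hpu h hs), (hpu _ h).1]
    intro h9
    exact pu_notMem hm hT pu hpu h (h9 ▸ hs)
  have h9 : sw m (pu s) s p = m p := sw_other h2 h1 hp.ne'
  have h10 : m s ≠ pu (m p) := (pu_ne_m hm hT pu hpu h hs).symm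
  have h11 := aug3 h6 h7 h8 h10 (by rw [h9]; exact h3) hp
  rw [h9] at h11
  exact h11 (hpu _ h).2.1

theorem star_deg (hp : ∀ x y, x ≠ y → 4 ≤ dg G x + dg G y)
    (hp' : ∀ x y, G.Adj x y → 6 ≤ dg G x + dg G y) {s : V} (hs : s ∈ T) :
    2 ≤ (nbs G (Mo m T) (pu s)).card + (nbs G (Mo m T ∪ T.erase s) (m s)).card := by
  classical
  have hne : pu s ≠ m s := pu_ne_m hm hT pu hpu hs hs
  have h1 : nbs G univ (pu s) ⊆ insert s (nbs G (Mo m T) (pu s) ∪ nbs G {m s} (pu s)) := by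
    intro p hp
    rw [mem_nbu] at hp
    simp only [mem_insert, mem_union, mem_nbs, mem_singleton]
    by_cases h1 : p = s
    · left; exact h1
    by_cases h2 : p = m s
    · right; right; exact ⟨h2, hp⟩
    · right; left; exact ⟨d_lemma hm hT pu hpu hs hp h1 h2, hp⟩
  have h2 : nbs G univ (m s) ⊆ insert s (nbs G (Mo m T ∪ T.erase s) (m s) ∪ nbs G {pu s} (m s)) := by
    intro p hp
    rw [mem_nbu] at hp
    simp only [mem_insert, mem_union, mem_nbs, mem_singleton]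
    by_cases h1 : p = s
    · left; exact h1
    by_cases h2 : p = pu s
    · right; right; exact ⟨h2, hp⟩
    · right; left
      rcases e_lemma hm hT pu hpu hs hp h1 h2 with h3 | h3
      · exact ⟨Or.inl h3, hp⟩
      · exact ⟨Or.inr (mem_erase.mpr ⟨h1, h3⟩), hp⟩
  have h3 := card_le_card h1
  have h4 := card_le_card h2
  have h5 := (card_insert_le s (nbs G (Mo m T) (pu s) ∪ nbs G {m s} (pu s)))
  have h6 := (card_insert_le s (nbs G (Mo m T ∪ T.erase s) (m s) ∪ nbs G {pu s} (m s)))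
  have h7 := card_union_le (nbs G (Mo m T) (pu s)) (nbs G {m s} (pu s))
  have h8 := card_union_le (nbs G (Mo m T ∪ T.erase s) (m s)) (nbs G {pu s} (m s))
  have h9 := hp _ _ hne
  unfold dg at h9
  by_cases h10 : G.Adj (pu s) (m s)
  · have h11 := nbs_card_le G {m s} (pu s)
    have h12 := nbs_card_le G {pu s} (m s)
    rw [card_singleton] at h11 h12
    have h13 := hp' _ _ h10
    unfold dg at h13
    omega
  · have h11 : nbs G {m s} (pu s) = ∅ := by
      rw [eq_empty_iff_forall_notMem]; intro x hx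
      rw [mem_nbs, mem_singleton] at hx
      exact h10 (hx.1 ▸ hx.2)
    have h12 : nbs G {pu s} (m s) = ∅ := by
      rw [eq_empty_iff_forall_notMem]; intro x hx
      rw [mem_nbs, mem_singleton] at hx
      exact h10 (hx.1 ▸ hx.2).symm
    have h13 : (nbs G {m s} (pu s)).card = 0 := by rw [h11, card_empty]
    have h14 : (nbs G {pu s} (m s)).card = 0 := by rw [h12, card_empty]
    omega

end

section
variable {G : SimpleGraph V} {m : V → V} {T : Finset V}

/-- adding a vertex of a free matching edge to the transversal -/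
theorem VT.ins (hm : IsMat G m) (hT : VT G m T) {p : V} (hp : p ∈ Mo m T) :
    VT G m (insert p T) := by
  rw [mem_Mo] at hp
  refine ⟨?_, ?_, ?_⟩
  · intro s hs
    rw [mem_insert] at hs
    rcases hs with rfl | hs
    · exact hp.2.1
    · exact hT.h1 s hs
  · intro s hs
    rw [mem_insert] at hs
    rw [mem_insert, not_or]
    rcases hs with rfl | hs
    · exact ⟨hp.2.1, hp.2.2⟩
    · refine ⟨?_, hT.h2 s hs⟩
      intro h
      apply hp.2.2
      rw [← h, hm.1]; exact hs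
  · intro u hu
    obtain ⟨s, hs, h⟩ := hT.h3 u hu
    exact ⟨s, mem_insert_of_mem hs, h⟩

theorem two_doubles (A : ℕ) (hA : Cnd G A) (hm : IsMat G m) (hT : VT G m T)
    (hc : Fintype.card V + T.card ≤ 2 * A) {p : V} (hp : p ∈ Mo m T) {x y : V}
    (hx : x ∈ Lf m (insert p T)) (hy : y ∈ Lf m (insert p T))
    (hx2 : 2 ≤ (nbs G (insert p T) x).card) (hy2 : 2 ≤ (nbs G (insert p T) y).card) : x = y := by
  have h1 := bound_R A hA hm (hT.ins hm hp)
  rw [card_insert_of_notMem ((mem_Mo _ _ _).mp hp).1] at h1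
  have h2 : (filter (fun w => 2 ≤ (nbs G (insert p T) w).card) (Lf m (insert p T))).card ≤ 1 := by
    omega
  rw [card_le_one] at h2
  exact h2 x (mem_filter.mpr ⟨hx, hx2⟩) y (mem_filter.mpr ⟨hy, hy2⟩)

theorem leaf_ins {p x : V} (hpM : p ∈ Mo m T) (hx : x ∈ Lf m T) : x ∈ Lf m (insert p T) := by
  rw [mem_Lf] at hx ⊢
  rw [mem_Mo] at hpM
  refine ⟨?_, ?_⟩
  · rw [mem_insert, not_or]
    refine ⟨?_, hx.1⟩
    rintro rfl
    rcases hx.2 with h | h
    · exact hpM.2.1 h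
    · exact hpM.2.2 h
  · rcases hx.2 with h | h
    · left; exact h
    · right; exact mem_insert_of_mem h

theorem leaf_dbl (hm : IsMat G m) (hT : VT G m T) {p x : V} (hpM : p ∈ Mo m T) (hx : x ∈ Lf m T)
    (hxp : G.Adj x p) : 2 ≤ (nbs G (insert p T) x).card := by
  obtain ⟨s, hs, hxs⟩ := leaf_nb hm hT x hx
  rw [mem_Mo] at hpM
  have hps : p ≠ s := by rintro rfl; exact hpM.1 hs
  rw [← card_pair hps]
  apply card_le_card
  intro y hy
  rw [mem_insert, mem_singleton] at hy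
  rw [mem_nbs]
  rcases hy with rfl | rfl
  · exact ⟨mem_insert_self _ _, hxp⟩
  · exact ⟨mem_insert_of_mem hs, hxs⟩

/-- each vertex of a free edge has at most one leaf neighbour -/
theorem L1 (A : ℕ) (hA : Cnd G A) (hm : IsMat G m) (hT : VT G m T)
    (hc : Fintype.card V + T.card ≤ 2 * A) {p x y : V} (hp : p ∈ Mo m T)
    (hx : x ∈ Lf m T) (hy : y ∈ Lf m T) (hxp : G.Adj x p) (hyp : G.Adj y p) : x = y :=
  two_doubles A hA hm hT hc hp (leaf_ins hp hx) (leaf_ins hp hy)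
    (leaf_dbl hm hT hp hx hxp) (leaf_dbl hm hT hp hy hyp)

theorem mMo (hm : IsMat G m) {p : V} (hp : p ∈ Mo m T) : m p ∈ Mo m T := by
  rw [mem_Mo] at hp ⊢
  rw [hm.1]
  exact ⟨hp.2.2, hp.2.1.symm, hp.1⟩

theorem L2 (A : ℕ) (hA : Cnd G A) (hm : IsMat G m) (hT : VT G m T)
    (hc : Fintype.card V + T.card ≤ 2 * A) {p x s : V} (hp : p ∈ Mo m T)
    (hx : x ∈ Lf m T) (hxp : G.Adj x p) (hs : s ∈ T) : ¬ G.Adj (m p) s := by
  intro ha
  have hp' := mMo hm hp
  have h1 : m p ∈ Lf m (insert p T) := by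
    rw [mem_Lf, hm.1]
    refine ⟨?_, Or.inr (mem_insert_self _ _)⟩
    rw [mem_insert, not_or]
    rw [mem_Mo] at hp
    exact ⟨hp.2.1, hp.2.2⟩
  have h2 : 2 ≤ (nbs G (insert p T) (m p)).card := by
    have hps : p ≠ s := by rintro rfl; exact ((mem_Mo _ _ _).mp hp).1 hs
    rw [← card_pair hps]
    apply card_le_card
    intro y hy
    rw [mem_insert, mem_singleton] at hy
    rw [mem_nbs]
    rcases hy with rfl | rfl
    · exact ⟨mem_insert_self _ _, (hm.2 y ((mem_Mo _ _ _).mp hp).2.1).symm⟩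
    · exact ⟨mem_insert_of_mem hs, ha⟩
  have h3 := two_doubles A hA hm hT hc hp (leaf_ins hp hx) h1 (leaf_dbl hm hT hp hx hxp) h2
  subst h3
  rw [mem_Mo] at hp'
  rw [mem_Lf] at hx
  rcases hx.2 with h | h
  · exact hp'.2.1 h
  · exact hp'.2.2 h

/-- total number of leaf/free incidences -/
theorem inc_le (A : ℕ) (hA : Cnd G A) (hm : IsMat G m) (hT : VT G m T)
    (hc : Fintype.card V + T.card ≤ 2 * A) :
    (Lf m T).biUnion (fun w => nbs G (Mo m T) w) ⊆ Mo m T ∧
    ∑ w ∈ Lf m T, (nbs G (Mo m T) w).card = ((Lf m T).biUnion (fun w => nbs G (Mo m T) w)).card := by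
  constructor
  · intro p hp
    rw [mem_biUnion] at hp
    obtain ⟨w, _, hw⟩ := hp
    exact ((mem_nbs _ _ _ _).mp hw).1
  · rw [card_biUnion]
    intro x hx y hy hxy
    simp only [Function.onFun]
    rw [disjoint_left]
    intro p hpx hpy
    rw [mem_nbs] at hpx hpy
    exact hxy (L1 A hA hm hT hc hpx.1 hx hy hpx.2 hpy.2)

end

end Zk97.OG
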