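import Pool.Agent.Zk97.OG.Case4

set_option autoImplicit false
set_option linter.unusedSectionVars false

namespace Zk97.OG

open Finset

variable {V : Type} [Fintype V] [DecidableEq V]

section
variable {G : SimpleGraph V} {m : V → V} {T : Finset V}

variable (hm : MaxMat G m) (hT : VT G m T) (pu : V → V)
  (hpu : ∀ s ∈ T, m (pu s) = pu s ∧ G.Adj (pu s) s ∧ ∀ s' ∈ T, G.Adj (pu s) s' → s' = s)

include hm hT hpu

theorem pu_mem_Lf {s : V} (hs : s ∈ T) : pu s ∈ Lf m T := by
  rw [mem_Lf]; exact ⟨pu_notMem hm hT pu hpu hs, Or.inl (hpu s hs).1⟩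

theorem m_mem_Lf {s : V} (hs : s ∈ T) : m s ∈ Lf m T := by
  rw [mem_Lf]; exact ⟨hT.h2 s hs, Or.inr (by rw [hm.1.1]; exact hs)⟩

theorem star_mem_Lf {s w : V} (hs : s ∈ T) (hw : w = pu s ∨ w = m s) : w ∈ Lf m T := by
  rcases hw with rfl | rfl
  · exact pu_mem_Lf hm hT pu hpu hs
  · exact m_mem_Lf hm hT pu hpu hs

theorem star_inj {s s' w : V} (hs : s ∈ T) (hs' : s' ∈ T) (hw : w = pu s ∨ w = m s)
    (hw' : w = pu s' ∨ w = m s') : s = s' := by
  rcases hw with h | h <;> rcases hw' with h' | h'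
  · exact pu_inj hm hT pu hpu hs hs' (h.symm.trans h')
  · exact absurd (h.symm.trans h') (pu_ne_m hm hT pu hpu hs hs')
  · exact absurd (h'.symm.trans h) (pu_ne_m hm hT pu hpu hs' hs)
  · have := h.symm.trans h'
    rw [← hm.1.1 s, ← hm.1.1 s', this]

theorem T_le_fx : T.card ≤ (fx m).card := by
  apply card_le_card_of_injOn pu
  · intro s hs
    exact mem_coe.mpr ((mem_fx _ _).mpr (hpu s hs).1)
  · intro s hs s' hs' h
    exact pu_inj hm hT pu hpu hs hs' h

theorem sum_star_le (g : V → ℕ) : ∑ s ∈ T, (g (pu s) + g (m s)) ≤ ∑ w ∈ Lf m T, g w := by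
  rw [sum_add_distrib]
  have h1 : ∑ s ∈ T, g (pu s) = ∑ w ∈ T.image pu, g w := by
    rw [sum_image]
    intro s hs s' hs' h
    exact pu_inj hm hT pu hpu hs hs' h
  have h2 : ∑ s ∈ T, g (m s) = ∑ w ∈ T.image m, g w := by
    rw [sum_image]
    intro s hs s' hs' h
    rw [← hm.1.1 s, ← hm.1.1 s', h]
  have h3 : Disjoint (T.image pu) (T.image m) := by
    rw [disjoint_left]
    intro x hx hx'
    rw [mem_image] at hx hx'
    obtain ⟨s, hs, rfl⟩ := hx
    obtain ⟨s', hs', h⟩ := hx'
    exact pu_ne_m hm hT pu hpu hs hs' h.symm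
  rw [h1, h2, ← sum_union h3]
  apply sum_le_sum_of_subset
  intro w hw
  rw [mem_union, mem_image, mem_image] at hw
  rcases hw with ⟨s, hs, rfl⟩ | ⟨s, hs, rfl⟩
  · exact pu_mem_Lf hm hT pu hpu hs
  · exact m_mem_Lf hm hT pu hpu hs

/-- no augmentation through a free edge between two different stars -/
theorem A1 {p s s' w w' : V} (hp : p ∈ Mo m T) (hs : s ∈ T) (hs' : s' ∈ T)
    (hw : w = pu s ∨ w = m s) (hw' : w' = pu s' ∨ w' = m s') (h1 : G.Adj w p)
    (h2 : G.Adj w' (m p)) : s = s' := by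
  by_contra hne
  rw [mem_Mo] at hp
  have e1 : pu s' ≠ pu s := fun h => hne (pu_inj hm hT pu hpu hs' hs h).symm
  have e2 : pu s' ≠ s := fun h => pu_notMem hm hT pu hpu hs' (h ▸ hs)
  have e3 : pu s' ≠ m s := pu_ne_m hm hT pu hpu hs' hs
  have e4 : s' ≠ pu s := fun h => pu_notMem hm hT pu hpu hs (h ▸ hs')
  have e5 : s' ≠ m s := fun h => hT.h2 s hs (h ▸ hs')
  have e6 : p ≠ pu s := by rintro rfl; exact hp.2.1 (hpu s hs).1
  have e7 : p ≠ s := by rintro rfl; exact hp.1 hs
  have e8 : p ≠ m s := by rintro rfl; exact hp.2.2 (by rw [hm.1.1]; exact hs)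
  have e9 : p ≠ pu s' := by rintro rfl; exact hp.2.1 (hpu s' hs').1
  have e10 : p ≠ s' := by rintro rfl; exact hp.1 hs'
  have e11 : p ≠ m s' := by rintro rfl; exact hp.2.2 (by rw [hm.1.1]; exact hs')
  obtain ⟨m1, k1, k2, k3⟩ := free_leaf hm (hpu s hs).1 (hT.h1 s hs) (hpu s hs).2.1 hw
  have k4 : m1 (pu s') = pu s' := by rw [k3 _ e1 e2 e3]; exact (hpu s' hs').1
  have k5 : m1 s' = m s' := k3 _ e4 (Ne.symm hne) e5
  have k6 : m1 s' ≠ s' := by rw [k5]; exact hT.h1 s' hs'
  have k7 : m1 p = m p := k3 _ e6 e7 e8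
  obtain ⟨m2, l1, l2, l3⟩ := free_leaf k1 k4 k6 (hpu s' hs').2.1 (by rw [k5]; exact hw')
  have l4 : m2 p = m p := by rw [l3 p e9 e10 (by rw [k5]; exact e11), k7]
  have f1 : w ≠ pu s' := by
    intro h
    exact hne (star_inj hm hT pu hpu hs hs' hw (Or.inl h))
  have f2 : w ≠ m s' := by
    intro h
    exact hne (star_inj hm hT pu hpu hs hs' hw (Or.inr h))
  have f3 : w ≠ s' := by
    rintro rfl
    exact ((mem_Lf _ _ _).mp (star_mem_Lf hm hT pu hpu hs hw)).1 hs'
  have l5 : m2 w = w := by rw [l3 w f1 f3 (by rw [k5]; exact f2), k2]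
  have l6 : w ≠ w' := by
    rintro rfl
    exact hne (star_inj hm hT pu hpu hs hs' hw hw')
  have := aug3 l1 l5 l2 l6 (by rw [l4]; exact hp.2.1) h1
  rw [l4] at this
  exact this h2

/-- no edge between free edges attached to different stars -/
theorem A3 {p x s s' w w' : V} (hp : p ∈ Mo m T) (hx : x ∈ Mo m T) (hs : s ∈ T) (hs' : s' ∈ T)
    (hne : s ≠ s') (hpx : p ≠ x) (hpmx : p ≠ m x)
    (hw : w = pu s ∨ w = m s) (hw' : w' = pu s' ∨ w' = m s') (h1 : G.Adj w (m p))
    (h2 : G.Adj w' (m x)) : ¬ G.Adj p x := by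
  have hp' := mMo hm.1 hp
  have hx' := mMo hm.1 hx
  have memo : ∀ z ∈ Mo m T, ∀ r ∈ T, z ≠ pu r ∧ z ≠ r ∧ z ≠ m r := by
    intro z hz r hr
    rw [mem_Mo] at hz
    refine ⟨?_, ?_, ?_⟩
    · rintro rfl; exact hz.2.1 (hpu r hr).1
    · rintro rfl; exact hz.1 hr
    · rintro rfl; exact hz.2.2 (by rw [hm.1.1]; exact hr)
  have e1 : pu s' ≠ pu s := fun h => hne (pu_inj hm hT pu hpu hs' hs h).symm
  have e2 : pu s' ≠ s := fun h => pu_notMem hm hT pu hpu hs' (h ▸ hs)
  have e3 : pu s' ≠ m s := pu_ne_m hm hT pu hpu hs' hs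
  have e4 : s' ≠ pu s := fun h => pu_notMem hm hT pu hpu hs (h ▸ hs')
  have e5 : s' ≠ m s := fun h => hT.h2 s hs (h ▸ hs')
  obtain ⟨a1, a2, a3⟩ := memo _ hp' s hs
  obtain ⟨b1, b2, b3⟩ := memo _ hp' s' hs'
  obtain ⟨a1', a2', a3'⟩ := memo _ hp s hs
  obtain ⟨b1', b2', b3'⟩ := memo _ hp s' hs'
  obtain ⟨c1, c2, c3⟩ := memo _ hx' s hs
  obtain ⟨d1, d2, d3⟩ := memo _ hx' s' hs'
  obtain ⟨m1, k1, k2, k3⟩ := free_mo hm (hpu s hs).1 (hT.h1 s hs) (hpu s hs).2.1 hw
    ((mem_Mo _ _ _).mp hp').2.1 a1 a2 a3 h1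
  rw [hm.1.1] at k2 k3
  have k4 : m1 (pu s') = pu s' := by
    rw [k3 _ e1 e2 e3 b1.symm b1'.symm]; exact (hpu s' hs').1
  have k5 : m1 s' = m s' := k3 _ e4 (Ne.symm hne) e5 b2.symm b2'.symm
  have k6 : m1 s' ≠ s' := by rw [k5]; exact hT.h1 s' hs'
  have k7 : m1 (m x) = x := by
    rw [k3 _ c1 c2 c3 _ hpmx.symm, hm.1.1]
    intro h
    apply hpx
    rw [← hm.1.1 p, ← hm.1.1 x, h]
  have hxx : m x ≠ x := ((mem_Mo _ _ _).mp hx).2.1
  obtain ⟨m2, l1, l2, l3⟩ := free_mo k1 k4 k6 (hpu s' hs').2.1 (by rw [k5]; exact hw')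
    (by rw [k7]; exact hxx.symm) d1 d2 (by rw [k5]; exact d3) h2
  rw [k7] at l2 l3
  rw [k5] at l3
  have l4 : m2 p = p := by rw [l3 p b1' b2' b3' hpmx hpx, k2]
  exact max_indep l1 l4 l2

end

/-- the case `γ = ⌊2n/3⌋` for `G`, `γ ≥ 4` for the complement, `n ≥ 6`, `n ≠ 7` -/
theorem case4 (G : SimpleGraph V) (hδ : ∀ v, ∃ w, G.Adj v w)
    (hp : ∀ x y, x ≠ y → 4 ≤ dg G x + dg G y)
    (hp' : ∀ x y, G.Adj x y → 6 ≤ dg G x + dg G y) (h6 : 6 ≤ Fintype.card V)
    (h7 : Fintype.card V ≠ 7) (hA : Cnd G (2 * Fintype.card V / 3)) : False := by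
  classical
  obtain ⟨m, hm⟩ := exists_max G
  obtain ⟨T0, hT0, -⟩ := exists_VT hm hδ
  obtain ⟨T, hT', hmin'⟩ := Finset.exists_min_image (univ.filter (fun T : Finset V => VT G m T))
    (fun T => T.card) ⟨T0, by simp [hT0]⟩
  have hT : VT G m T := (mem_filter.mp hT').2
  have hmin : ∀ T', VT G m T' → T.card ≤ T'.card := fun T' h => hmin' T' (by simp [h])
  have : Nonempty V := by
    rw [← Fintype.card_pos_iff]; omega
  have hpriv := exists_private hT hmin
  choose! pu hpu using hpriv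
  have hcnt := card_TML m T
  have hLf := card_Lf hm.1 hT
  have hfx := T_le_fx hm hT pu hpu
  have hR := bound_R _ hA hm.1 hT
  set n := Fintype.card V with hn
  set f := 2 * n / 3 with hf
  have hst0 : ∀ s ∈ T, 2 ≤ (nbs G (Mo m T) (pu s)).card + (nbs G (Mo m T ∪ T.erase s) (m s)).card :=
    fun s hs => star_deg hm hT pu hpu hp hp' hs
  have hMo2 : ∀ p ∈ Mo m T, 2 ≤ (Mo m T).card := by
    intro p hp1
    have h1 : p ≠ m p := ((mem_Mo _ _ _).mp hp1).2.1.symm
    rw [← card_pair h1]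
    apply card_le_card
    intro y hy
    rw [mem_insert, mem_singleton] at hy
    rcases hy with rfl | rfl
    · exact hp1
    · exact mMo hm.1 hp1
  rcases Nat.lt_or_ge (2 * f) (n + T.card) with hr | hc
  · -- |T| = K + 1
    have h1 : (Mo m T).card ≤ 1 := by omega
    have h2 : Mo m T = ∅ := by
      rw [eq_empty_iff_forall_notMem]
      intro p hp1
      have := hMo2 p hp1
      omega
    have h3 : T.image m ⊆ filter (fun w => 2 ≤ (nbs G T w).card) (Lf m T) := by
      intro w hw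
      rw [mem_image] at hw
      obtain ⟨s, hs, rfl⟩ := hw
      rw [mem_filter]
      refine ⟨m_mem_Lf hm hT pu hpu hs, ?_⟩
      have h4 := hst0 s hs
      rw [h2, empty_union] at h4
      have h5 : nbs G ∅ (pu s) = ∅ := by
        rw [eq_empty_iff_forall_notMem]; intro x hx
        rw [mem_nbs] at hx; simp at hx
      rw [h5, card_empty, zero_add] at h4
      refine h4.trans (card_le_card ?_)
      intro x hx
      rw [mem_nbs] at hx ⊢
      exact ⟨mem_of_mem_erase hx.1, hx.2⟩
    have h4 := card_le_card h3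
    rw [card_image_of_injective] at h4
    · omega
    · intro x y hxy
      rw [← hm.1.1 x, ← hm.1.1 y, hxy]
  · -- |T| = K
    have hd0 : ∀ w ∈ Lf m T, (nbs G T w).card ≤ 1 := by
      intro w hw
      by_contra hcon
      have h1 : 0 < (filter (fun w => 2 ≤ (nbs G T w).card) (Lf m T)).card :=
        card_pos.mpr ⟨w, mem_filter.mpr ⟨hw, by omega⟩⟩
      omega
    have hst : ∀ s ∈ T, 2 ≤ (nbs G (Mo m T) (pu s)).card + (nbs G (Mo m T) (m s)).card := by
      intro s hs
      have h1 := hst0 s hs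
      have h2 : nbs G (Mo m T ∪ T.erase s) (m s) ⊆ nbs G (Mo m T) (m s) := by
        intro x hx
        rw [mem_nbs, mem_union] at hx
        rw [mem_nbs]
        rcases hx.1 with h3 | h3
        · exact ⟨h3, hx.2⟩
        · exfalso
          rw [mem_erase] at h3
          have h4 := hd0 _ (m_mem_Lf hm hT pu hpu hs)
          rw [card_le_one] at h4
          apply h3.1
          apply h4
          · rw [mem_nbs]; exact ⟨h3.2, hx.2⟩
          · rw [mem_nbs]; exact ⟨hs, (hm.1.2 s (hT.h1 s hs)).symm⟩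
      have := card_le_card h2
      omega
    obtain ⟨hsub, hsum⟩ := inc_le f hA hm.1 hT hc
    have hsum2 : ∑ s ∈ T, ((nbs G (Mo m T) (pu s)).card + (nbs G (Mo m T) (m s)).card) ≤
        ∑ w ∈ Lf m T, (nbs G (Mo m T) w).card :=
      sum_star_le hm hT pu hpu (fun w => (nbs G (Mo m T) w).card)
    have hsum3 : T.card * 2 ≤ ∑ s ∈ T, ((nbs G (Mo m T) (pu s)).card + (nbs G (Mo m T) (m s)).card) := by
      rw [← smul_eq_mul]
      exact card_nsmul_le_sum _ _ _ hst
    have hcard := card_le_card hsub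
    have hT5 : 5 * T.card ≤ n := by omega
    have hTK : n + T.card = 2 * f := by omega
    have hn10 : n = 10 := by
      clear_value f n
      obtain ⟨k, hk⟩ : ∃ k, n = 3 * k ∨ n = 3 * k + 1 ∨ n = 3 * k + 2 := ⟨n / 3, by omega⟩
      rcases hk with hk | hk | hk
      · have : f = 2 * k := by omega
        omega
      · have : f = 2 * k := by omega
        omega
      · have : f = 2 * k + 1 := by omega
        omega
    have hT2 : T.card = 2 := by omega
    have hM4 : (Mo m T).card = 4 := by omega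
    have hfx2 : (fx m).card = 2 := by omega
    have hbi : (Lf m T).biUnion (fun w => nbs G (Mo m T) w) = Mo m T := by
      apply eq_of_subset_of_card_le hsub
      omega
    have hfxi : T.image pu = fx m := by
      apply eq_of_subset_of_card_le
      · intro w hw
        rw [mem_image] at hw
        obtain ⟨s, hs, rfl⟩ := hw
        rw [mem_fx]; exact (hpu s hs).1
      · rw [card_image_of_injOn]
        · omega
        · intro s hs s' hs' h
          exact pu_inj hm hT pu hpu hs hs' h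
    have hleaf : ∀ p ∈ Mo m T, ∃ s ∈ T, ∃ w, (w = pu s ∨ w = m s) ∧ G.Adj w p := by
      intro p hp1
      rw [← hbi, mem_biUnion] at hp1
      obtain ⟨w, hw, hwp⟩ := hp1
      rw [mem_nbs] at hwp
      rw [mem_Lf] at hw
      rcases hw.2 with h | h
      · rw [← mem_fx, ← hfxi, mem_image] at h
        obtain ⟨s, hs, rfl⟩ := h
        exact ⟨s, hs, _, Or.inl rfl, hwp.2⟩
      · exact ⟨m w, h, w, Or.inr (hm.1.1 w).symm, hwp.2⟩
    -- each star has exactly two incidences
    have hex : ∀ s ∈ T, (nbs G (Mo m T) (pu s)).card + (nbs G (Mo m T) (m s)).card ≤ 2 := by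
      intro s hs
      have h1 : ∑ s ∈ T, ((nbs G (Mo m T) (pu s)).card + (nbs G (Mo m T) (m s)).card) ≤ 4 := by
        omega
      rw [← add_sum_erase T _ hs] at h1
      have h2 : (T.erase s).card * 2 ≤ ∑ s ∈ T.erase s,
          ((nbs G (Mo m T) (pu s)).card + (nbs G (Mo m T) (m s)).card) := by
        rw [← smul_eq_mul]
        exact card_nsmul_le_sum _ _ _ (fun x hx => hst x (mem_of_mem_erase hx))
      rw [card_erase_of_mem hs, hT2] at h2
      omega
    have hdeg : ∀ p ∈ Mo m T, dg G p ≤ 2 := by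
      intro p hp1
      have hmp1 := mMo hm.1 hp1
      obtain ⟨s, hs, w, hw, hwp⟩ := hleaf p hp1
      obtain ⟨s', hs', w', hw', hwp'⟩ := hleaf (m p) hmp1
      have hss : s = s' := A1 hm hT pu hpu hp1 hs hs' hw hw' hwp hwp'
      subst hss
      -- the free vertices attached to star `s`
      have hMs : ∀ x ∈ Mo m T, ∀ z, (z = pu s ∨ z = m s) → G.Adj z x → x = p ∨ x = m p := by
        intro x hx z hz hzx
        by_contra hcon
        push Not at hcon
        have hpmp : p ≠ m p := ((mem_Mo _ _ _).mp hp1).2.1.symm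
        have h1 : ({x, p, m p} : Finset V) ⊆ nbs G (Mo m T) (pu s) ∪ nbs G (Mo m T) (m s) := by
          intro y hy
          rw [mem_insert, mem_insert, mem_singleton] at hy
          rw [mem_union, mem_nbs, mem_nbs]
          rcases hy with rfl | rfl | rfl
          · rcases hz with rfl | rfl
            · left; exact ⟨hx, hzx⟩
            · right; exact ⟨hx, hzx⟩
          · rcases hw with rfl | rfl
            · left; exact ⟨hp1, hwp⟩
            · right; exact ⟨hp1, hwp⟩
          · rcases hw' with rfl | rfl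
            · left; exact ⟨hmp1, hwp'⟩
            · right; exact ⟨hmp1, hwp'⟩
        have h2 := card_le_card h1
        rw [card_insert_of_notMem (by simp [hcon.1, hcon.2]), card_pair hpmp] at h2
        have h3 := card_union_le (nbs G (Mo m T) (pu s)) (nbs G (Mo m T) (m s))
        have h4 := hex s hs
        omega
      have hsubN : nbs G univ p ⊆ {m p, w} := by
        intro x hx
        rw [mem_nbu] at hx
        rw [mem_insert, mem_singleton]
        by_cases hxT : x ∈ T
        · exfalso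
          have := L2 f hA hm.1 hT hc hmp1 (star_mem_Lf hm hT pu hpu hs hw') hwp' hxT
          rw [hm.1.1] at this
          exact this hx
        by_cases hxM : x ∈ Mo m T
        · by_contra hcon
          push Not at hcon
          have hmx := mMo hm.1 hxM
          obtain ⟨t, ht, z, hz, hzx⟩ := hleaf x hxM
          obtain ⟨t', ht', z', hz', hzx'⟩ := hleaf (m x) hmx
          have htt : t = t' := A1 hm hT pu hpu hxM ht ht' hz hz' hzx hzx'
          subst htt
          have hst' : s ≠ t := by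
            rintro rfl
            rcases hMs x hxM z hz hzx with h | h
            · exact hx.ne h.symm
            · exact hcon.1 h
          apply A3 hm hT pu hpu hp1 hxM hs ht hst' hx.ne ?_ hw' hz' hwp' hzx' hx
          intro h
          apply hcon.1
          rw [h, hm.1.1]
        · have hxL : x ∈ Lf m T := by
            rw [← compl_TMo, mem_compl, mem_union, not_or]; exact ⟨hxT, hxM⟩
          right
          exact L1 f hA hm.1 hT hc hp1 hxL (star_mem_Lf hm hT pu hpu hs hw) hx.symm hwp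
      have h1 := card_le_card hsubN
      have h2 := card_le_two (a := m p) (b := w)
      unfold dg; omega
    obtain ⟨p, hp1⟩ : (Mo m T).Nonempty := card_pos.mp (by omega)
    have h1 := hp' p (m p) (hm.1.2 p ((mem_Mo _ _ _).mp hp1).2.1)
    have h2 := hdeg p hp1
    have h3 := hdeg _ (mMo hm.1 hp1)
    omega

end Zk97.OG
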