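import Mathlib

set_option autoImplicit false

namespace Zk97.OG

/-- weighted averaging function -/
def hF (n A B l m d : ℤ) : ℤ :=
  l * (d * (d - 1) * (d - 2) * (2 * (n - 1) - d - 3) - (B - 4) * ((n - 1) * (n - 2) * (n - 3))) +
  m * ((n - 1 - d) * (n - 1 - d - 1) * (n - 1 - d - 2) * (2 * (n - 1) - (n - 1 - d) - 3) -
    (A - 4) * ((n - 1) * (n - 2) * (n - 3)))

def inner (n A B l m d1 d2 D2 D1 d : ℤ) : Bool :=
  decide (hF n A B l m d1 + hF n A B l m d2 + hF n A B l m D2 + hF n A B l m D1 +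
    (n - 4) * hF n A B l m d < 0)

def chk (n A B : ℕ) (L : List (ℕ × ℕ)) (ex : ℕ → ℕ → ℕ → ℕ → Bool) : Bool :=
  (List.range n).all fun d1 => (List.range n).all fun d2 =>
    !(Nat.ble d1 d2 && Nat.ble (2 * B) (4 + d1 + d2)) ||
    (List.range n).all fun D2 => !(Nat.ble d2 D2 && Nat.ble (A + 2 * B) (d1 + D2 + 8)) ||
    (List.range n).all fun D1 =>
      !(Nat.ble D2 D1 && Nat.ble (2 * A + D1 + D2) (2 * n + 2) &&
        Nat.ble (B + 2 * A + D1 + d2) (2 * (n - 1) + 8)) || ex d1 d2 D2 D1 ||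
      L.any fun lm => (List.range n).all fun d => !(Nat.ble d2 d && Nat.ble d D2) ||
        inner n A B lm.1 lm.2 d1 d2 D2 D1 d

theorem chk_spec (n A B : ℕ) (L : List (ℕ × ℕ)) (ex : ℕ → ℕ → ℕ → ℕ → Bool)
    (h : chk n A B L ex = true) (d1 d2 D2 D1 : ℕ) (h1 : D1 < n) (h2 : d1 ≤ d2) (h3 : d2 ≤ D2)
    (h4 : D2 ≤ D1) (h5 : 2 * B ≤ 4 + d1 + d2) (h6 : A + 2 * B ≤ d1 + D2 + 8)
    (h7 : 2 * A + D1 + D2 ≤ 2 * n + 2) (h8 : B + 2 * A + D1 + d2 ≤ 2 * (n - 1) + 8)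
    (h9 : ex d1 d2 D2 D1 = false) :
    ∃ l m : ℕ, ∀ d < n, d2 ≤ d → d ≤ D2 →
      hF n A B l m d1 + hF n A B l m d2 + hF n A B l m D2 + hF n A B l m D1 +
        ((n : ℤ) - 4) * hF n A B l m d < 0 := by
  unfold chk at h
  rw [List.all_eq_true] at h
  have k1 := h d1 (List.mem_range.mpr (by omega))
  rw [List.all_eq_true] at k1
  have k2 := k1 d2 (List.mem_range.mpr (by omega))
  have e1 : (Nat.ble d1 d2 && Nat.ble (2 * B) (4 + d1 + d2)) = true := by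
    rw [Bool.and_eq_true, Nat.ble_eq, Nat.ble_eq]; exact ⟨h2, h5⟩
  rw [e1, Bool.not_true, Bool.false_or, List.all_eq_true] at k2
  have k3 := k2 D2 (List.mem_range.mpr (by omega))
  have e2 : (Nat.ble d2 D2 && Nat.ble (A + 2 * B) (d1 + D2 + 8)) = true := by
    rw [Bool.and_eq_true, Nat.ble_eq, Nat.ble_eq]; exact ⟨h3, h6⟩
  rw [e2, Bool.not_true, Bool.false_or, List.all_eq_true] at k3
  have k4 := k3 D1 (List.mem_range.mpr (by omega))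
  have e3 : (Nat.ble D2 D1 && Nat.ble (2 * A + D1 + D2) (2 * n + 2) &&
        Nat.ble (B + 2 * A + D1 + d2) (2 * (n - 1) + 8)) = true := by
    rw [Bool.and_eq_true, Bool.and_eq_true, Nat.ble_eq, Nat.ble_eq, Nat.ble_eq]
    exact ⟨⟨h4, h7⟩, h8⟩
  rw [e3, Bool.not_true, Bool.false_or, h9, Bool.false_or, List.any_eq_true] at k4
  obtain ⟨lm, _, k5⟩ := k4
  rw [List.all_eq_true] at k5
  refine ⟨lm.1, lm.2, fun d hd hd2 hD2 => ?_⟩
  have k6 := k5 d (List.mem_range.mpr hd)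
  have e4 : (Nat.ble d2 d && Nat.ble d D2) = true := by
    rw [Bool.and_eq_true, Nat.ble_eq, Nat.ble_eq]; exact ⟨hd2, hD2⟩
  rw [e4, Bool.not_true, Bool.false_or] at k6
  exact of_decide_eq_true k6

def LL : List (ℕ × ℕ) := [(1,1),(2,1),(7,4),(5,2)]

theorem chk_all : ∀ n < 20, ∀ A < 20, (9 ≤ n ∧ n ≠ 10 ∧ 5 ≤ A ∧ 5 ≤ 2 * n / 3 + 4 - A ∧
    2 * n / 3 + 4 - A ≤ A) → chk n A (2 * n / 3 + 4 - A) LL (fun _ _ _ _ => false) = true := by
  decide +kernel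

def ex10 (d1 d2 D2 D1 : ℕ) : Bool :=
  (Nat.ble d1 2 && Nat.ble d2 4) || (Nat.ble 7 D1 && Nat.ble 5 D2) || (Nat.beq d1 3 && Nat.beq D1 6)

def LL10 : List (ℕ × ℕ) := [(1,1),(1,0),(0,1),(2,1),(1,2)]

theorem chk_10 : chk 10 5 5 LL10 ex10 = true := by decide +kernel

end Zk97.OG
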