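import Pool.Agent.Zk97.OG.Cost

set_option autoImplicit false
set_option linter.unusedSectionVars false

namespace Zk97.OG

open Finset

variable {V : Type} [Fintype V] [DecidableEq V]

/-- every instance of the cost bound costs at least `2 A` -/
def Cnd (H : SimpleGraph V) (A : ℕ) : Prop :=
  ∀ (T M : Finset V) (m : V → V), (∀ v ∈ M, m v ∈ M ∧ H.Adj v (m v) ∧ m (m v) = v) →
    2 * A ≤ 2 * T.card + M.card + ∑ w ∈ (T ∪ M)ᶜ, (2 - (nbs H T w).card)

theorem cnd_of_not_win (H : SimpleGraph V) (k : ℕ) (h : ¬ Win H k) : Cnd H (k + 1) := by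
  intro T M m hm
  by_contra hc
  apply h
  exact cost_bound H T M m hm k (by omega)

theorem Cnd.mono {H : SimpleGraph V} {A A' : ℕ} (h : Cnd H A') (hA : A ≤ A') : Cnd H A := by
  intro T M m hm
  have := h T M m hm
  omega

theorem Cnd.S {H : SimpleGraph V} {A : ℕ} (h : Cnd H A) (S : Finset V) :
    2 * A ≤ 2 * S.card + ∑ w ∈ Sᶜ, (2 - (nbs H S w).card) := by
  have := h S ∅ id (by simp)
  simpa using this

/-- degree -/
noncomputable def dg (H : SimpleGraph V) (w : V) : ℕ := (nbs H univ w).card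

theorem mem_nbu (H : SimpleGraph V) (w t : V) : t ∈ nbs H univ w ↔ H.Adj w t := by
  simp [mem_nbs]

theorem nbs_eq (H : SimpleGraph V) (S : Finset V) (w : V) : nbs H S w = nbs H univ w ∩ S := by
  ext t; simp [mem_nbs, and_comm]

theorem nbs_compl_card (H : SimpleGraph V) (S : Finset V) (w : V) (hw : w ∉ S) :
    (nbs Hᶜ S w).card = S.card - (nbs H S w).card := by
  have h : nbs Hᶜ S w = S \ nbs H S w := by
    ext t
    simp only [mem_nbs, mem_sdiff, SimpleGraph.compl_adj, not_and]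
    constructor
    · rintro ⟨h1, _, h3⟩; exact ⟨h1, fun _ => h3⟩
    · rintro ⟨h1, h2⟩; exact ⟨h1, fun h => hw (h ▸ h1), h2 h1⟩
  rw [h, card_sdiff_of_subset]
  intro t ht; exact ((mem_nbs _ _ _ _).mp ht).1

theorem nbs_card_le (H : SimpleGraph V) (S : Finset V) (w : V) : (nbs H S w).card ≤ S.card :=
  card_le_card fun _ ht => ((mem_nbs _ _ _ _).mp ht).1

theorem dg_add (H : SimpleGraph V) (w : V) : dg Hᶜ w + dg H w + 1 = Fintype.card V := by
  unfold dg
  have h1 : Disjoint (nbs Hᶜ univ w) (nbs H univ w) := by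
    rw [disjoint_left]; intro t ht ht'
    rw [mem_nbu] at ht ht'
    exact ht.2 ht'
  have h2 : w ∉ nbs Hᶜ univ w ∪ nbs H univ w := by
    simp [mem_nbu]
  have h3 : insert w (nbs Hᶜ univ w ∪ nbs H univ w) = univ := by
    ext t
    simp only [mem_insert, mem_union, mem_nbu, SimpleGraph.compl_adj, mem_univ, iff_true]
    by_cases h : t = w
    · left; exact h
    · right
      by_cases h' : H.Adj w t
      · right; exact h'
      · left; exact ⟨fun h2 => h h2.symm, h'⟩
  rw [← card_union_of_disjoint h1, ← card_insert_of_notMem h2, h3, card_univ]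

theorem card_nbs_eq_sum (H : SimpleGraph V) (S : Finset V) (w : V) [DecidableRel H.Adj] :
    (nbs H S w).card = ∑ s ∈ S, if H.Adj w s then 1 else 0 := by
  rw [← card_filter]
  congr 1
  ext t; simp [mem_nbs]

/-- pair condition -/
theorem pair_cond (H : SimpleGraph V) (B : ℕ) (h : Cnd Hᶜ B) (x y : V) (hxy : x ≠ y) :
    2 * B ≤ 4 + dg H x + dg H y ∧ (H.Adj x y → 2 * B + 2 ≤ 4 + dg H x + dg H y) := by
  classical
  have h1 := h.S {x, y}
  rw [card_pair hxy] at h1
  have h2 : ∑ w ∈ ({x, y} : Finset V)ᶜ, (2 - (nbs Hᶜ {x, y} w).card) =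
      ∑ w ∈ ({x, y} : Finset V)ᶜ, ((if H.Adj w x then 1 else 0) + (if H.Adj w y then 1 else 0)) := by
    apply sum_congr rfl
    intro w hw
    rw [mem_compl] at hw
    rw [nbs_compl_card H _ w hw, card_pair hxy, card_nbs_eq_sum, sum_pair hxy]
    split_ifs <;> simp
  rw [h2, sum_add_distrib, ← card_filter, ← card_filter] at h1
  have h3 : (filter (fun w => H.Adj w x) ({x, y} : Finset V)ᶜ) ⊆ (nbs H univ x).erase y := by
    intro w hw
    simp only [mem_filter, mem_compl, mem_insert, mem_singleton, not_or] at hw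
    rw [mem_erase, mem_nbu]
    exact ⟨hw.1.2, hw.2.symm⟩
  have h4 : (filter (fun w => H.Adj w y) ({x, y} : Finset V)ᶜ) ⊆ (nbs H univ y).erase x := by
    intro w hw
    simp only [mem_filter, mem_compl, mem_insert, mem_singleton, not_or] at hw
    rw [mem_erase, mem_nbu]
    exact ⟨hw.1.1, hw.2.symm⟩
  have h5 := card_le_card h3
  have h6 := card_le_card h4
  have h7 := card_le_card (erase_subset y (nbs H univ x))
  have h8 := card_le_card (erase_subset x (nbs H univ y))
  refine ⟨by unfold dg; omega, fun hadj => ?_⟩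
  have h9 : y ∈ nbs H univ x := (mem_nbu _ _ _).mpr hadj
  have h10 : x ∈ nbs H univ y := (mem_nbu _ _ _).mpr hadj.symm
  have h11 := card_erase_of_mem h9
  have h12 := card_erase_of_mem h10
  have h13 : 0 < (nbs H univ x).card := card_pos.mpr ⟨_, h9⟩
  have h14 : 0 < (nbs H univ y).card := card_pos.mpr ⟨_, h10⟩
  unfold dg; omega

/-- upper pair condition -/
theorem pair_cond' (H : SimpleGraph V) (A : ℕ) (h : Cnd H A) (x y : V) (hxy : x ≠ y) :
    2 * A + dg H x + dg H y ≤ 2 * Fintype.card V + 2 ∧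
      (¬ H.Adj x y → 2 * A + dg H x + dg H y ≤ 2 * Fintype.card V) := by
  have h1 := pair_cond Hᶜ A (by rwa [compl_compl]) x y hxy
  have h2 := dg_add H x
  have h3 := dg_add H y
  refine ⟨by omega, fun hn => ?_⟩
  have := h1.2 (by rw [SimpleGraph.compl_adj]; exact ⟨hxy, hn⟩)
  omega

/-- triple condition -/
theorem triple_cond (H : SimpleGraph V) (B : ℕ) (h : Cnd Hᶜ B) (x y z : V) (hxy : x ≠ y)
    (hxz : x ≠ z) (hyz : y ≠ z) :
    2 * B ≤ 6 + (nbs H univ x ∩ nbs H univ y).card +
      ((nbs H univ x ∪ nbs H univ y) ∩ nbs H univ z).card := by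
  classical
  have h1 := h.S {x, y, z}
  have hc : ({x, y, z} : Finset V).card = 3 := by
    rw [card_insert_of_notMem (by simp [hxy, hxz]), card_pair hyz]
  rw [hc] at h1
  have h2 : ∑ w ∈ ({x, y, z} : Finset V)ᶜ, (2 - (nbs Hᶜ {x, y, z} w).card) ≤
      ∑ w ∈ ({x, y, z} : Finset V)ᶜ, ((if w ∈ nbs H univ x ∩ nbs H univ y then 1 else 0) +
        (if w ∈ (nbs H univ x ∪ nbs H univ y) ∩ nbs H univ z then 1 else 0)) := by
    apply sum_le_sum
    intro w hw
    rw [mem_compl] at hw
    rw [nbs_compl_card H _ w hw, hc, card_nbs_eq_sum, sum_insert (by simp [hxy, hxz]), sum_pair hyz]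
    simp only [mem_inter, mem_union, mem_nbu, H.adj_comm x w, H.adj_comm y w, H.adj_comm z w]
    by_cases a1 : H.Adj w x <;> by_cases a2 : H.Adj w y <;> by_cases a3 : H.Adj w z <;>
      simp [a1, a2, a3]
  rw [sum_add_distrib, ← card_filter, ← card_filter] at h2
  have h3 : (filter (fun w => w ∈ nbs H univ x ∩ nbs H univ y) ({x, y, z} : Finset V)ᶜ) ⊆
      nbs H univ x ∩ nbs H univ y := by
    intro w hw; exact (mem_filter.mp hw).2
  have h4 : (filter (fun w => w ∈ (nbs H univ x ∪ nbs H univ y) ∩ nbs H univ z)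
      ({x, y, z} : Finset V)ᶜ) ⊆ (nbs H univ x ∪ nbs H univ y) ∩ nbs H univ z := by
    intro w hw; exact (mem_filter.mp hw).2
  have h5 := card_le_card h3
  have h6 := card_le_card h4
  omega

end Zk97.OG
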