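import Pool.Agent.Zk97.OG.Game

set_option autoImplicit false
set_option linter.unusedSectionVars false

namespace Zk97.OG

open Finset

variable {V : Type} [Fintype V] [DecidableEq V]

/-- neighbours of `w` in `T` -/
noncomputable def nbs (H : SimpleGraph V) (T : Finset V) (w : V) : Finset V := by
  classical exact T.filter (fun t => H.Adj w t)

theorem mem_nbs (H : SimpleGraph V) (T : Finset V) (w t : V) :
    t ∈ nbs H T w ↔ t ∈ T ∧ H.Adj w t := by
  unfold nbs; simp

/-- a finite type has an involution with at most one fixed point -/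
theorem exists_invol (α : Type) [Fintype α] :
    ∃ σ : α → α, (∀ x, σ (σ x) = x) ∧ ∀ x y, σ x = x → σ y = y → x = y := by
  classical
  obtain ⟨e⟩ := Fintype.truncEquivFin α
  set n := Fintype.card α
  let τ : Fin n → Fin n := fun i =>
    if h : i.val % 2 = 0 then (if h' : i.val + 1 < n then ⟨i.val + 1, h'⟩ else i)
    else ⟨i.val - 1, by omega⟩
  have h1 : ∀ i, τ (τ i) = i := by
    intro i
    by_cases h : i.val % 2 = 0
    · by_cases h' : i.val + 1 < n
      · have : τ i = ⟨i.val + 1, h'⟩ := by simp [τ, h, h']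
        rw [this]
        have h3 : ¬ ((i.val + 1) % 2 = 0) := by omega
        simp [τ, h3]
      · have : τ i = i := by simp [τ, h, h']
        rw [this, this]
    · have h4 : τ i = ⟨i.val - 1, by omega⟩ := by simp [τ, h]
      rw [h4]
      have h5 : (i.val - 1) % 2 = 0 := by omega
      have h6 : i.val - 1 + 1 < n := by omega
      ext
      simp only [τ, h5, h6, dif_pos]
      omega
  have h2 : ∀ i j, τ i = i → τ j = j → i = j := by
    have : ∀ i, τ i = i → i.val + 1 = n ∧ i.val % 2 = 0 := by
      intro i hi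
      have hv := congrArg Fin.val hi
      by_cases h : i.val % 2 = 0
      · by_cases h' : i.val + 1 < n
        · simp [τ, h, h'] at hv
        · exact ⟨by omega, h⟩
      · simp only [τ, h, dif_neg, not_false_eq_true] at hv
        omega
    intro i j hi hj
    have h3 := this i hi
    have h4 := this j hj
    ext; omega
  refine ⟨fun x => e.symm (τ (e x)), fun x => by simp [h1], fun x y hx hy => ?_⟩
  apply e.injective
  apply h2
  · have := congrArg e hx; simpa using this
  · have := congrArg e hy; simpa using this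

/-- The cost bound. -/
theorem cost_bound (H : SimpleGraph V) (T M : Finset V) (m : V → V)
    (hm : ∀ v ∈ M, m v ∈ M ∧ H.Adj v (m v) ∧ m (m v) = v) (k : ℕ)
    (hk : 2 * T.card + M.card + ∑ w ∈ (T ∪ M)ᶜ, (2 - (nbs H T w).card) ≤ 2 * k + 1) :
    Win H k := by
  classical
  set R := (T ∪ M)ᶜ with hR
  set R0 := R.filter (fun w => (nbs H T w).card = 0) with hR0
  set R1 := R.filter (fun w => (nbs H T w).card = 1) with hR1
  set R2 := R.filter (fun w => 2 ≤ (nbs H T w).card) with hR2
  have hsum : ∑ w ∈ R, (2 - (nbs H T w).card) = R1.card + 2 * R0.card := by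
    rw [hR0, hR1, card_filter, card_filter, mul_sum, ← sum_add_distrib]
    apply sum_congr rfl
    intro w _
    rcases Nat.lt_or_ge (nbs H T w).card 2 with h | h
    · interval_cases (nbs H T w).card <;> simp
    · have : (nbs H T w).card ≠ 1 := by omega
      have : (nbs H T w).card ≠ 0 := by omega
      simp [*]
  have ha : ∀ w, ∃ a, 1 ≤ (nbs H T w).card → a ∈ nbs H T w := by
    intro w
    by_cases h : (nbs H T w).Nonempty
    · exact ⟨h.choose, fun _ => h.choose_spec⟩
    · refine ⟨w, fun h1 => ?_⟩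
      exact absurd (card_pos.mp h1) h
  choose a ha using ha
  have hb : ∀ w, ∃ b, 2 ≤ (nbs H T w).card → b ∈ nbs H T w ∧ b ≠ a w := by
    intro w
    by_cases h : 2 ≤ (nbs H T w).card
    · obtain ⟨b, hb1, hb2⟩ := Finset.exists_mem_ne (by omega : 1 < (nbs H T w).card) (a w)
      exact ⟨b, fun _ => ⟨hb1, hb2⟩⟩
    · exact ⟨w, fun h1 => absurd h1 h⟩
  choose b hb using hb
  obtain ⟨σ, hσ1, hσ2⟩ := exists_invol {w // w ∈ R1}
  let arc : {w // w ∈ R1} ⊕ ({w // w ∈ R2} × Bool) → V × V := fun i =>
    match i with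
    | Sum.inl w => (a w.1, w.1)
    | Sum.inr (w, true) => (a w.1, w.1)
    | Sum.inr (w, false) => (b w.1, w.1)
  let mate : {w // w ∈ R1} ⊕ ({w // w ∈ R2} × Bool) → {w // w ∈ R1} ⊕ ({w // w ∈ R2} × Bool) := fun i =>
    match i with
    | Sum.inl w => Sum.inl (σ w)
    | Sum.inr (w, c) => Sum.inr (w, !c)
  have hR1m : ∀ w ∈ R1, w ∉ T ∧ a w ∈ T ∧ H.Adj w (a w) := by
    intro w hw
    rw [hR1, mem_filter, hR, mem_compl, mem_union, not_or] at hw
    have := ha w (by omega)
    rw [mem_nbs] at this
    exact ⟨hw.1.1, this⟩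
  have hR2m : ∀ w ∈ R2, w ∉ T ∧ (a w ∈ T ∧ H.Adj w (a w)) ∧ (b w ∈ T ∧ H.Adj w (b w)) ∧ b w ≠ a w := by
    intro w hw
    rw [hR2, mem_filter, hR, mem_compl, mem_union, not_or] at hw
    have h1 := ha w (by omega)
    have h2 := hb w (by omega)
    rw [mem_nbs] at h1 h2
    exact ⟨hw.1.1, h1, h2.1, h2.2⟩
  have hR12 : ∀ w ∈ R1, w ∉ R2 := by
    intro w hw hw2
    rw [hR1, mem_filter] at hw
    rw [hR2, mem_filter] at hw2
    omega
  have harc : ∀ i, (arc i).1 ∈ T ∧ (arc i).2 ∉ T ∧ H.Adj (arc i).1 (arc i).2 := by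
    rintro (⟨w, hw⟩ | ⟨⟨w, hw⟩, c⟩)
    · have := hR1m w hw
      exact ⟨this.2.1, this.1, this.2.2.symm⟩
    · have := hR2m w hw
      cases c
      · exact ⟨this.2.2.1.1, this.1, this.2.2.1.2.symm⟩
      · exact ⟨this.2.1.1, this.1, this.2.1.2.symm⟩
  apply pairing H arc ?_ (fun i => (harc i).2.2) ?_ mate ?_ ?_ k
  · intro A hanti hfull hpair
    let Y := M.filter (fun v => (v, m v) ∈ A)
    let X := R1.filter (fun w => (a w, w) ∉ A)
    have hY : 2 * Y.card ≤ M.card := by
      have h1 : (Y.image m) ⊆ M \ Y := by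
        intro x hx
        rw [mem_image] at hx
        obtain ⟨v, hv, rfl⟩ := hx
        rw [mem_filter] at hv
        obtain ⟨h2, h3⟩ := hv
        rw [mem_sdiff, mem_filter]
        refine ⟨(hm v h2).1, fun h4 => ?_⟩
        have h5 := h4.2
        rw [(hm v h2).2.2] at h5
        exact hanti _ _ h3 h5
      have h2 : (Y.image m).card = Y.card := by
        apply card_image_of_injOn
        intro x hx y hy hxy
        have hx' := (mem_filter.mp (mem_coe.mp hx)).1
        have hy' := (mem_filter.mp (mem_coe.mp hy)).1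
        rw [← (hm x hx').2.2, ← (hm y hy').2.2, hxy]
      have h3 := card_le_card h1
      have h4 : Y ⊆ M := filter_subset _ _
      rw [h2, card_sdiff_of_subset h4] at h3
      have h5 : Y.card ≤ M.card := card_le_card h4
      omega
    have hX : 2 * X.card ≤ R1.card := by
      let X' : Finset {w // w ∈ R1} := univ.filter (fun w => (a w.1, w.1) ∉ A)
      have h0 : X.card = X'.card := by
        have : X = X'.map (Function.Embedding.subtype _) := by
          ext w
          simp only [X, X', mem_filter, mem_map, mem_univ, true_and, Function.Embedding.coe_subtype, Subtype.exists, exists_and_right, exists_eq_right]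
          constructor
          · rintro ⟨h1, h2⟩; exact ⟨h1, h2⟩
          · rintro ⟨h1, h2⟩; exact ⟨h1, h2⟩
        rw [this, card_map]
      have h1 : Disjoint X' (X'.image σ) := by
        rw [disjoint_left]
        intro x hx hx2
        rw [mem_image] at hx2
        obtain ⟨y, hy, rfl⟩ := hx2
        rw [mem_filter] at hx hy
        rcases hpair (Sum.inl y) with h2 | h2
        · exact hy.2 h2
        · exact hx.2 h2
      have h2 : (X'.image σ).card = X'.card := by
        apply card_image_of_injective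
        intro x y hxy
        rw [← hσ1 x, ← hσ1 y, hxy]
      have h3 : (X' ∪ X'.image σ).card ≤ Fintype.card {w // w ∈ R1} := by
        exact card_le_univ _
      rw [card_union_of_disjoint h1, h2, Fintype.card_coe] at h3
      omega
    refine ⟨T ∪ Y ∪ X ∪ R0, ?_, ?_⟩
    · have h1 : (T ∪ Y ∪ X ∪ R0).card ≤ T.card + Y.card + X.card + R0.card := by
        refine (card_union_le _ _).trans ?_
        gcongr
        refine (card_union_le _ _).trans ?_
        gcongr
        exact card_union_le _ _
      rw [hsum] at hk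
      omega
    · intro v hv
      simp only [mem_union, not_or] at hv
      obtain ⟨⟨⟨hvT, hvY⟩, hvX⟩, hv0⟩ := hv
      by_cases hvM : v ∈ M
      · have h1 : (v, m v) ∉ A := fun h => hvY (mem_filter.mpr ⟨hvM, h⟩)
        have h2 : (m v, v) ∈ A := by
          rcases hfull _ _ (hm v hvM).2.1 with h | h
          · exact absurd h h1
          · exact h
        refine ⟨m v, ?_, h2⟩
        simp only [mem_union]
        left; left; right
        rw [mem_filter]
        refine ⟨(hm v hvM).1, ?_⟩
        rw [(hm v hvM).2.2]; exact h2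
      · have hvR : v ∈ R := by
          rw [hR, mem_compl, mem_union, not_or]; exact ⟨hvT, hvM⟩
        rcases Nat.lt_or_ge (nbs H T v).card 2 with h | h
        · have h1 : (nbs H T v).card ≠ 0 := fun h1 => hv0 (mem_filter.mpr ⟨hvR, h1⟩)
          have h2 : v ∈ R1 := mem_filter.mpr ⟨hvR, by omega⟩
          have h3 : (a v, v) ∈ A := by
            by_contra h4
            exact hvX (mem_filter.mpr ⟨h2, h4⟩)
          exact ⟨a v, by simp [(hR1m v h2).2.1], h3⟩
        · have h2 : v ∈ R2 := mem_filter.mpr ⟨hvR, h⟩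
          rcases hpair (Sum.inr (⟨v, h2⟩, true)) with h3 | h3
          · exact ⟨a v, by simp [(hR2m v h2).2.1.1], h3⟩
          · exact ⟨b v, by simp [(hR2m v h2).2.2.1.1], h3⟩
  · rintro (⟨w, hw⟩ | ⟨⟨w, hw⟩, c⟩) (⟨w', hw'⟩ | ⟨⟨w', hw'⟩, c'⟩) h
    · simp only [arc, Prod.mk.injEq] at h
      obtain ⟨_, rfl⟩ := h; rfl
    · cases c' <;> simp only [arc, Prod.mk.injEq] at h <;> obtain ⟨_, rfl⟩ := h <;>
        exact absurd hw' (hR12 _ hw)
    · cases c <;> simp only [arc, Prod.mk.injEq] at h <;> obtain ⟨_, rfl⟩ := h <;>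
        exact absurd hw (hR12 _ hw')
    · cases c <;> cases c' <;> simp only [arc, Prod.mk.injEq] at h <;> obtain ⟨h1, rfl⟩ := h
      · rfl
      · exact absurd h1 (hR2m _ hw).2.2.2
      · exact absurd h1.symm (hR2m _ hw).2.2.2
      · rfl
  · intro i j h
    have h1 := congrArg Prod.fst h
    simp only [Prod.fst_swap] at h1
    exact (harc j).2.1 (h1 ▸ (harc i).1)
  · rintro (⟨w, hw⟩ | ⟨⟨w, hw⟩, c⟩)
    · simp only [mate]; rw [hσ1]
    · simp [mate]
  · rintro (⟨w, hw⟩ | ⟨⟨w, hw⟩, c⟩) (⟨w', hw'⟩ | ⟨⟨w', hw'⟩, c'⟩) h h'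
    · simp only [mate, Sum.inl.injEq] at h h' ⊢
      exact hσ2 _ _ h h'
    · simp [mate] at h'
    · simp [mate] at h
    · simp [mate] at h

end Zk97.OG
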