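import Pool.Agent.Zk97.OG.Ten
import Pool.Agent.Zk97.OG.Case4b
import Pool.Agent.Zk97.OG.Chk

set_option autoImplicit false
set_option linter.unusedSectionVars false

namespace Zk97.OG

open Finset

variable {V : Type} [Fintype V] [DecidableEq V]

theorem dg_eq_degree (G : SimpleGraph V) [DecidableRel G.Adj] (v : V) : dg G v = G.degree v := by
  unfold dg
  rw [← SimpleGraph.card_neighborFinset_eq_degree]
  congr 1
  ext t; simp [mem_nbu]

theorem case7 (G : SimpleGraph V) (h7 : Fintype.card V = 7) (hA : Cnd G 4) (hB : Cnd Gᶜ 4)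
    (hδ : ∀ v, 1 ≤ dg G v) (hδ' : ∀ v, 1 ≤ dg Gᶜ v) : False := by
  classical
  have hadd := dg_add G
  rw [h7] at hadd
  have lo := fun x y (h : x ≠ y) => pair_cond G 4 hB x y h
  have up := fun x y (h : x ≠ y) => pair_cond' G 4 hA x y h
  rw [h7] at up
  have hnb : ∀ v, ∃ w, G.Adj v w := by
    intro v
    obtain ⟨w, hw⟩ := card_pos.mp (hδ v)
    exact ⟨w, (mem_nbu _ _ _).mp hw⟩
  have hnb' : ∀ v, ∃ w, Gᶜ.Adj v w := by
    intro v
    obtain ⟨w, hw⟩ := card_pos.mp (hδ' v)
    exact ⟨w, (mem_nbu _ _ _).mp hw⟩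
  have h5 : ∀ x, dg G x ≠ 5 := by
    intro x hx
    obtain ⟨y, hy⟩ := hnb' x
    have h1 := (up x y hy.1).2 hy.2
    obtain ⟨p, hp⟩ := hnb y
    have h2 := (lo y p hp.ne).2 hp
    have hxp : x ≠ p := by rintro rfl; exact hy.2 hp.symm
    have h3 := (up x p hxp).1
    omega
  have h1 : ∀ x, dg G x ≠ 1 := by
    intro x hx
    obtain ⟨p, hp⟩ := hnb x
    have h2 := (lo x p hp.ne).2 hp
    have h3 := hadd p
    have h4 := hδ' p
    exact h5 p (by omega)
  have hrange : ∀ x, dg G x = 2 ∨ dg G x = 3 ∨ dg G x = 4 := by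
    intro x
    have a1 := h1 x; have a2 := h5 x; have a3 := hadd x; have a4 := hδ x; have a5 := hδ' x
    omega
  set L := univ.filter (fun x => dg G x = 2) with hL
  set Hh := univ.filter (fun x => dg G x = 4) with hH
  have hLn : ∀ x ∈ L, (nbs G Hh x).card = 2 := by
    intro x hx
    rw [hL, mem_filter] at hx
    have : nbs G Hh x = nbs G univ x := by
      ext p
      rw [mem_nbu, mem_nbs]
      refine ⟨fun h => h.2, fun h => ⟨?_, h⟩⟩
      rw [hH, mem_filter]
      refine ⟨mem_univ _, ?_⟩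
      have h2 := (lo x p h.ne).2 h
      have := hrange p
      omega
    rw [this]; exact hx.2
  have hHn : ∀ y ∈ Hh, (nbs G L y).card + 2 = L.card := by
    intro y hy
    rw [hH, mem_filter] at hy
    have hyL : y ∉ L := by
      rw [hL, mem_filter]; omega
    have h2 : nbs Gᶜ L y = nbs Gᶜ univ y := by
      ext p
      rw [mem_nbu, mem_nbs]
      refine ⟨fun h => h.2, fun h => ⟨?_, h⟩⟩
      rw [hL, mem_filter]
      refine ⟨mem_univ _, ?_⟩
      have h2 := (up y p h.1).2 h.2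
      have := hrange p
      omega
    have h3 := nbs_compl_card G L y hyL
    rw [h2] at h3
    have h4 : (nbs Gᶜ univ y).card = dg Gᶜ y := rfl
    have h5 := hadd y
    have h6 := nbs_card_le G L y
    omega
  have hdc : ∑ x ∈ L, (nbs G Hh x).card = ∑ y ∈ Hh, (nbs G L y).card := by
    simp_rw [card_nbs_eq_sum]
    rw [sum_comm]
    apply sum_congr rfl
    intro y _
    apply sum_congr rfl
    intro x _
    simp only [G.adj_comm]
  have hs1 : ∑ x ∈ L, (nbs G Hh x).card = L.card * 2 := by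
    rw [sum_congr rfl hLn, sum_const, smul_eq_mul]
  have hs2 : ∑ y ∈ Hh, (nbs G L y).card = Hh.card * (L.card - 2) := by
    rw [sum_congr rfl (fun y hy => (by have := hHn y hy; omega : (nbs G L y).card = L.card - 2)),
      sum_const, smul_eq_mul]
  have hcard : L.card + Hh.card ≤ 7 := by
    have hd : Disjoint L Hh := by
      rw [disjoint_left]; intro x hx hx'
      rw [hL, mem_filter] at hx
      rw [hH, mem_filter] at hx'
      omega
    rw [← card_union_of_disjoint hd, ← h7]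
    exact card_le_univ _
  have heq : L.card * 2 = Hh.card * (L.card - 2) := by rw [← hs1, ← hs2, hdc]
  by_cases hL0 : L.card = 0
  · -- all degrees are three
    have hH0 : Hh.card = 0 := by
      by_contra hne
      obtain ⟨y, hy⟩ := card_pos.mp (Nat.pos_of_ne_zero hne)
      have := hHn y hy
      omega
    have hall : ∀ x, dg G x = 3 := by
      intro x
      rcases hrange x with h | h | h
      · have : x ∈ L := by rw [hL, mem_filter]; exact ⟨mem_univ _, h⟩
        rw [card_eq_zero.mp hL0] at this; simp at this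
      · exact h
      · have : x ∈ Hh := by rw [hH, mem_filter]; exact ⟨mem_univ _, h⟩
        rw [card_eq_zero.mp hH0] at this; simp at this
    have h := G.sum_degrees_eq_twice_card_edges
    have h' : ∑ v, G.degree v = 21 := by
      rw [sum_congr rfl (fun v _ => (by rw [← dg_eq_degree, hall] : G.degree v = 3)), sum_const,
        card_univ, h7]
      rfl
    rw [h'] at h
    omega
  · have hH0 : Hh.card ≠ 0 := by
      intro h0
      obtain ⟨x, hx⟩ := card_pos.mp (Nat.pos_of_ne_zero hL0)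
      have := hLn x hx
      rw [card_eq_zero.mp h0] at this
      have h3 := nbs_card_le G ∅ x
      simp at h3
      rw [h3] at this
      simp at this
    have h1 : L.card ≤ 7 := by omega
    have h2 : Hh.card ≤ 7 := by omega
    generalize L.card = l at *
    generalize Hh.card = h at *
    interval_cases l <;> omega

/-- choose the extreme degrees -/
theorem four_vertices (d : V → ℕ) (hn : 4 ≤ Fintype.card V) :
    ∃ x x' Y' Y : V, x ≠ x' ∧ x ≠ Y' ∧ x ≠ Y ∧ x' ≠ Y' ∧ x' ≠ Y ∧ Y' ≠ Y ∧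
      (∀ w, d x ≤ d w) ∧ (∀ w, w ≠ x → d x' ≤ d w) ∧ (∀ w, w ≠ Y → d w ≤ d Y') ∧
      (∀ w, d w ≤ d Y) := by
  classical
  have hu : (univ : Finset V).card = Fintype.card V := card_univ
  obtain ⟨x, -, hx⟩ := exists_min_image (univ : Finset V) d (card_pos.mp (by omega))
  have h1 := card_erase_of_mem (mem_univ x)
  obtain ⟨x', hx'm, hx'⟩ := exists_min_image (univ.erase x) d (card_pos.mp (by omega))
  have h2 := card_erase_of_mem hx'm
  obtain ⟨Y, hYm, hY⟩ := exists_max_image ((univ.erase x).erase x') d (card_pos.mp (by omega))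
  have h3 := card_erase_of_mem hYm
  obtain ⟨Y', hY'm, hY'⟩ := exists_max_image (((univ.erase x).erase x').erase Y) d
    (card_pos.mp (by omega))
  rw [mem_erase] at hx'm
  rw [mem_erase, mem_erase] at hYm
  rw [mem_erase, mem_erase, mem_erase] at hY'm
  have k1 : ∀ w, w ≠ x → d x' ≤ d w := fun w hw => hx' w (mem_erase.mpr ⟨hw, mem_univ _⟩)
  have k2 : ∀ w, w ≠ x → w ≠ x' → d w ≤ d Y := fun w hw hw' =>
    hY w (by rw [mem_erase, mem_erase]; exact ⟨hw', hw, mem_univ _⟩)
  have k3 : ∀ w, w ≠ x → w ≠ x' → w ≠ Y → d w ≤ d Y' := fun w hw hw' hw'' =>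
    hY' w (by rw [mem_erase, mem_erase, mem_erase]; exact ⟨hw'', hw', hw, mem_univ _⟩)
  refine ⟨x, x', Y', Y, hx'm.1.symm, hY'm.2.2.1.symm, hYm.2.1.symm, hY'm.2.1.symm, hYm.1.symm,
    hY'm.1, fun w => hx w (mem_univ _), k1, ?_, ?_⟩
  · intro w hw
    by_cases h4 : w = x
    · subst h4; exact hx _ (mem_univ _)
    by_cases h5 : w = x'
    · subst h5; exact k1 _ hY'm.2.2.1
    exact k3 w h4 h5 hw
  · intro w
    by_cases h4 : w = x
    · subst h4; exact hx _ (mem_univ _)
    by_cases h5 : w = x'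
    · subst h5; exact k1 _ hYm.2.1
    exact k2 w h4 h5

theorem sum_hF_nonneg (G : SimpleGraph V) (A B : ℕ) (hA : Cnd G A) (hB : Cnd Gᶜ B) (l m : ℕ) :
    0 ≤ ∑ w, hF (Fintype.card V) A B l m (dg G w) := by
  have h1 := avg G B hB (Fintype.card V) rfl
  have h2 := avg Gᶜ A (by rwa [compl_compl]) (Fintype.card V) rfl
  set n : ℤ := (Fintype.card V : ℤ) with hn
  have h3 : ∀ w, (dg Gᶜ w : ℤ) = n - 1 - dg G w := by
    intro w
    have := dg_add G w
    rw [hn, ← this]; push_cast; ring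
  simp_rw [h3] at h2
  have h4 : ∑ w, hF n A B l m (dg G w) =
      l * (∑ w, ((dg G w : ℤ) * (dg G w - 1) * (dg G w - 2) * (2 * (n - 1) - dg G w - 3)) -
        ((B : ℤ) - 4) * (n * (n - 1) * (n - 2) * (n - 3))) +
      m * (∑ w, ((n - 1 - dg G w : ℤ) * (n - 1 - dg G w - 1) * (n - 1 - dg G w - 2) *
        (2 * (n - 1) - (n - 1 - dg G w) - 3)) -
        ((A : ℤ) - 4) * (n * (n - 1) * (n - 2) * (n - 3))) := by
    unfold hF
    rw [sum_add_distrib, ← mul_sum, ← mul_sum, sum_sub_distrib, sum_sub_distrib, sum_const,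
      sum_const, card_univ, nsmul_eq_mul, nsmul_eq_mul, ← hn]
    ring
  rw [h4]
  have h5 : (0 : ℤ) ≤ l := Int.natCast_nonneg _
  have h6 : (0 : ℤ) ≤ m := Int.natCast_nonneg _
  have h7 := mul_nonneg h5 (sub_nonneg.mpr h1)
  have h8 := mul_nonneg h6 (sub_nonneg.mpr h2)
  linarith

theorem deg_final (G : SimpleGraph V) (A B : ℕ) (hA : Cnd G A) (hB : Cnd Gᶜ B)
    (h5 : 5 ≤ Fintype.card V) (l m : ℕ) (x x' Y' Y : V) (e1 : x ≠ x') (e2 : x ≠ Y')
    (e3 : x ≠ Y) (e4 : x' ≠ Y') (e5 : x' ≠ Y) (e6 : Y' ≠ Y)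
    (h2 : ∀ w, w ≠ x → dg G x' ≤ dg G w) (h3 : ∀ w, w ≠ Y → dg G w ≤ dg G Y')
    (hneg : ∀ d < Fintype.card V, dg G x' ≤ d → d ≤ dg G Y' →
      hF (Fintype.card V) A B l m (dg G x) + hF (Fintype.card V) A B l m (dg G x') +
      hF (Fintype.card V) A B l m (dg G Y') + hF (Fintype.card V) A B l m (dg G Y) +
        ((Fintype.card V : ℤ) - 4) * hF (Fintype.card V) A B l m d < 0) : False := by
  classical
  have h0 := sum_hF_nonneg G A B hA hB l m
  set g : V → ℤ := fun w => hF (Fintype.card V) A B l m (dg G w) with hg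
  set F : Finset V := {x, x', Y', Y} with hF'
  have hFc : F.card = 4 := by
    rw [hF', card_insert_of_notMem (by simp [e1, e2, e3]), card_insert_of_notMem (by simp [e4, e5]),
      card_pair e6]
  have hFs : ∑ w ∈ F, g w = g x + g x' + g Y' + g Y := by
    rw [hF', sum_insert (by simp [e1, e2, e3]), sum_insert (by simp [e4, e5]), sum_pair e6]
    ring
  have hFcc : F.card + Fᶜ.card = Fintype.card V := card_add_card_compl F
  have hs : ∑ w, g w = ∑ w ∈ F, g w + ∑ w ∈ Fᶜ, g w := (sum_add_sum_compl F g).symm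
  have hn4 : ((Fᶜ.card : ℕ) : ℤ) = (Fintype.card V : ℤ) - 4 := by
    rw [← hFcc, hFc]; push_cast; ring
  have hne : Fᶜ.Nonempty := card_pos.mp (by omega)
  have h4 : ∑ w ∈ Fᶜ, ((Fintype.card V : ℤ) - 4) * g w < ∑ w ∈ Fᶜ, (-(g x + g x' + g Y' + g Y)) := by
    apply sum_lt_sum_of_nonempty hne
    intro w hw
    rw [mem_compl, hF'] at hw
    simp only [mem_insert, mem_singleton, not_or] at hw
    have hlt : dg G w < Fintype.card V := by
      have := dg_add G w
      omega
    have := hneg (dg G w) hlt (h2 w hw.1) (h3 w hw.2.2.2)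
    simp only [hg]
    linarith
  rw [← mul_sum, sum_const, nsmul_eq_mul, hn4] at h4
  have hpos : (0 : ℤ) < (Fintype.card V : ℤ) - 4 := by
    have : (5 : ℤ) ≤ Fintype.card V := by exact_mod_cast h5
    linarith
  have h6 : ∑ w ∈ Fᶜ, g w < -(g x + g x' + g Y' + g Y) := by
    by_contra hcon
    push Not at hcon
    have := mul_le_mul_of_nonneg_left hcon hpos.le
    linarith
  rw [hs, hFs] at h0
  linarith

/-- degree constraints for the four extreme vertices -/
theorem extreme (G : SimpleGraph V) (A B : ℕ) (hA : Cnd G A) (hB : Cnd Gᶜ B)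
    (hA5 : 5 ≤ A) (hB5 : 5 ≤ B) (hδ : ∀ v, 1 ≤ dg G v) (hδ' : ∀ v, 1 ≤ dg Gᶜ v)
    (h4 : 4 ≤ Fintype.card V) (x x' Y' Y : V) (e1 : x ≠ x') (e6 : Y' ≠ Y)
    (h2 : ∀ w, w ≠ x → dg G x' ≤ dg G w) (h3 : ∀ w, w ≠ Y → dg G w ≤ dg G Y') :
    2 * B ≤ 4 + dg G x + dg G x' ∧ A + 2 * B ≤ dg G x + dg G Y' + 8 ∧
    2 * A + dg G Y + dg G Y' ≤ 2 * Fintype.card V + 2 ∧
    B + 2 * A + dg G Y + dg G x' ≤ 2 * (Fintype.card V - 1) + 8 := by
  refine ⟨(pair_cond G B hB x x' e1).1, ?_, ?_, ?_⟩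
  · obtain ⟨y1, y2, hy, _, _, ha, hb⟩ := W2 G A B hA hB hB5 hδ h4 x
    by_cases h : y1 = Y
    · have := h3 y2 (by rintro rfl; exact hy h)
      omega
    · have := h3 y1 h
      omega
  · have := (pair_cond' G A hA Y Y' e6.symm).1
    omega
  · obtain ⟨y1, y2, hy, _, _, ha, hb⟩ := W2 Gᶜ B A hB (by rwa [compl_compl]) hA5 hδ' h4 Y
    have k1 := dg_add G Y
    have k2 := dg_add G y1
    have k3 := dg_add G y2
    have k4 := dg_add G x'
    by_cases h : y1 = x
    · have := h2 y2 (by rintro rfl; exact hy h)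
      omega
    · have := h2 y1 h
      omega

end Zk97.OG
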