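import Mathlib

set_option autoImplicit false

namespace Zk97.OG

open Finset

variable {V : Type} [Fintype V] [DecidableEq V]

/-- Minimizer (moving first) can guarantee domination number at most `k`. -/
def Win (H : SimpleGraph V) (k : ℕ) : Prop :=
  ∃ P : Set (Finset (V × V)), (∅ : Finset (V × V)) ∈ P ∧ ∀ A ∈ P,
    ((∀ u v : V, H.Adj u v → (u, v) ∈ A ∨ (v, u) ∈ A) →
        ∃ S : Finset V, S.card ≤ k ∧ ∀ v : V, v ∉ S → ∃ u ∈ S, (u, v) ∈ A) ∧
    ((¬ ∀ u v : V, H.Adj u v → (u, v) ∈ A ∨ (v, u) ∈ A) → Even A.card →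
        ∃ u v : V, H.Adj u v ∧ (u, v) ∉ A ∧ (v, u) ∉ A ∧ insert (u, v) A ∈ P) ∧
    ((¬ ∀ u v : V, H.Adj u v → (u, v) ∈ A ∨ (v, u) ∈ A) → Odd A.card →
        ∀ u v : V, H.Adj u v → (u, v) ∉ A → (v, u) ∉ A → insert (u, v) A ∈ P)

/-- The pairing strategy. -/
theorem pairing (H : SimpleGraph V) {ι : Type} (arc : ι → V × V)
    (hinj : Function.Injective arc)
    (hadj : ∀ i, H.Adj (arc i).1 (arc i).2)
    (hrev : ∀ i j, arc i ≠ (arc j).swap)
    (mate : ι → ι) (hmate : ∀ i, mate (mate i) = i)
    (hfix : ∀ i j, mate i = i → mate j = j → i = j) (k : ℕ)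
    (hend : ∀ A : Finset (V × V), (∀ u v, (u, v) ∈ A → (v, u) ∉ A) →
      (∀ u v : V, H.Adj u v → (u, v) ∈ A ∨ (v, u) ∈ A) →
      (∀ i, arc i ∈ A ∨ arc (mate i) ∈ A) →
      ∃ S : Finset V, S.card ≤ k ∧ ∀ v : V, v ∉ S → ∃ u ∈ S, (u, v) ∈ A) : Win H k := by
  classical
  let T : Finset (V × V) → ι → Prop := fun A i => (arc i).swap ∈ A ∧ arc (mate i) ∉ A
  let Pe : Finset (V × V) → Prop := fun A =>
    (A.Nonempty → ∀ i, mate i = i → arc i ∈ A) ∧ (∀ i j, T A i → T A j → i = j) ∧
      (∀ i, T A i → (arc (mate i)).swap ∉ A)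
  let Po : Finset (V × V) → Prop := fun A =>
    (∀ i, mate i = i → arc i ∈ A) ∧ ∀ i, (arc i).swap ∈ A → arc (mate i) ∈ A
  refine ⟨{A | (∀ u v, (u, v) ∈ A → (v, u) ∉ A) ∧ (Even A.card → Pe A) ∧ (Odd A.card → Po A)}, ?_, ?_⟩
  · refine ⟨by simp, fun _ => ⟨by simp, ?_, ?_⟩, by simp⟩
    · intro i j hi; simp [T] at hi
    · intro i hi; simp [T] at hi
  rintro A ⟨hanti, heven, hodd⟩
  refine ⟨?_, ?_, ?_⟩
  · intro hfull
    apply hend A hanti hfull
    intro i
    have h1 := hfull _ _ (hadj i)
    by_contra hcon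
    push Not at hcon
    obtain ⟨h2, h3⟩ := hcon
    have h4 : (arc i).swap ∈ A := by
      rcases h1 with h1 | h1
      · exact absurd h1 h2
      · exact h1
    rcases Nat.even_or_odd A.card with he | ho
    · have := (heven he).2.2 i ⟨h4, h3⟩
      rcases hfull _ _ (hadj (mate i)) with h5 | h5
      · exact h3 h5
      · exact this h5
    · exact h3 ((hodd ho).2 i h4)
  · intro hnf he
    obtain ⟨hp1, hp2, hp3⟩ := heven he
    have key : ∀ a b : V, (a, b) ∉ A → (b, a) ∉ A → a ≠ b → Po (insert (a, b) A) →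
        insert (a, b) A ∈ {A : Finset (V × V) | (∀ u v, (u, v) ∈ A → (v, u) ∉ A) ∧
          (Even A.card → Pe A) ∧ (Odd A.card → Po A)} := by
      intro a b h1 h2 h3 h4
      have hc : Odd (insert (a, b) A).card := by
        rw [card_insert_of_notMem h1]; exact he.add_one
      refine ⟨?_, ?_, fun _ => h4⟩
      · intro u v huv
        simp only [mem_insert, Prod.mk.injEq, not_or, not_and] at huv ⊢
        rcases huv with ⟨rfl, rfl⟩ | huv
        · exact ⟨fun h => absurd h.symm h3, h2⟩
        · refine ⟨?_, hanti u v huv⟩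
          rintro rfl rfl
          exact h2 huv
      · intro h5
        exact absurd h5 (Nat.not_even_iff_odd.mpr hc)
    by_cases hT : ∃ i, T A i
    · obtain ⟨i, hi⟩ := hT
      have h1 : arc (mate i) ∉ A := hi.2
      have h2 : (arc (mate i)).swap ∉ A := hp3 i hi
      refine ⟨(arc (mate i)).1, (arc (mate i)).2, hadj _, h1, h2, ?_⟩
      apply key _ _ h1 h2 (hadj (mate i)).ne
      have hne : A.Nonempty := ⟨_, hi.1⟩
      refine ⟨fun j hj => mem_insert_of_mem (hp1 hne j hj), ?_⟩
      intro j hj
      rw [mem_insert] at hj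
      rcases hj with hj | hj
      · exact absurd hj.symm (hrev (mate i) j)
      · by_cases h6 : arc (mate j) ∈ A
        · exact mem_insert_of_mem h6
        · have := hp2 i j hi ⟨hj, h6⟩
          subst this
          exact mem_insert_self _ _
    · push Not at hT
      by_cases hfx : ∃ e, mate e = e ∧ arc e ∉ A
      · obtain ⟨e, he1, he2⟩ := hfx
        have hA : A = ∅ := by
          by_contra hne
          exact he2 (hp1 (nonempty_iff_ne_empty.mpr hne) e he1)
        subst hA
        refine ⟨(arc e).1, (arc e).2, hadj _, by simp, by simp, ?_⟩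
        apply key _ _ (by simp) (by simp) (hadj e).ne
        refine ⟨fun j hj => ?_, fun j hj => ?_⟩
        · rw [hfix j e hj he1]; simp
        · simp only [insert_empty_eq, mem_singleton] at hj
          exact absurd hj.symm (hrev e j)
      · push Not at hfx
        have hchoose : ∃ a b, H.Adj a b ∧ (a, b) ∉ A ∧ (b, a) ∉ A ∧ ∀ j, arc j ≠ (b, a) := by
          push Not at hnf
          obtain ⟨u, v, huv, h1, h2⟩ := hnf
          by_cases h : ∃ j, arc j = (v, u)
          · obtain ⟨j, hj⟩ := h
            refine ⟨v, u, huv.symm, h2, h1, fun i hi => ?_⟩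
            apply hrev i j
            rw [hi, hj]; rfl
          · push Not at h
            exact ⟨u, v, huv, h1, h2, h⟩
        obtain ⟨a, b, hab, h1, h2, h3⟩ := hchoose
        refine ⟨a, b, hab, h1, h2, key a b h1 h2 hab.ne ?_⟩
        refine ⟨fun j hj => mem_insert_of_mem (hfx j hj), fun j hj => ?_⟩
        rw [mem_insert] at hj
        rcases hj with hj | hj
        · exfalso
          apply h3 j
          rw [← Prod.swap_swap (arc j), hj]; rfl
        · by_contra h6
          exact hT j ⟨hj, fun h7 => h6 (mem_insert_of_mem h7)⟩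
  · intro hnf ho u v huv h1 h2
    obtain ⟨hp1, hp2⟩ := hodd ho
    have hc : Even (insert (u, v) A).card := by
      rw [card_insert_of_notMem h1]; exact ho.add_one
    have hT : ∀ i, T (insert (u, v) A) i → (arc i).swap = (u, v) := by
      intro i hi
      have h3 := hi.1
      rw [mem_insert] at h3
      rcases h3 with h3 | h3
      · exact h3
      · exact absurd (mem_insert_of_mem (hp2 i h3)) hi.2
    refine ⟨?_, fun _ => ⟨fun _ i hi => mem_insert_of_mem (hp1 i hi), ?_, ?_⟩, fun h => absurd hc (Nat.not_even_iff_odd.mpr h)⟩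
    · intro a b hab
      simp only [mem_insert, Prod.mk.injEq, not_or, not_and] at hab ⊢
      rcases hab with ⟨rfl, rfl⟩ | hab
      · exact ⟨fun h => absurd h.symm huv.ne, h2⟩
      · refine ⟨?_, hanti a b hab⟩
        rintro rfl rfl
        exact h2 hab
    · intro i j hi hj
      apply hinj
      have := (hT i hi).trans (hT j hj).symm
      exact Prod.swap_injective this
    · intro i hi h3
      have h4 := hT i hi
      rw [mem_insert] at h3
      rcases h3 with h3 | h3
      · have h5 : arc (mate i) = arc i := Prod.swap_injective (h3.trans h4.symm)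
        have h6 : arc i ∈ A := hp1 i (hinj h5)
        apply h2
        have : arc i = (v, u) := by rw [← Prod.swap_swap (arc i), h4]; rfl
        rwa [← this]
      · have h5 := hp2 (mate i) h3
        rw [hmate] at h5
        apply h2
        have : arc i = (v, u) := by rw [← Prod.swap_swap (arc i), h4]; rfl
        rwa [← this]

end Zk97.OG
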