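import Pool.Agent.Zk97.OG.Cnd

set_option autoImplicit false
set_option linter.unusedSectionVars false

namespace Zk97.OG

open Finset

variable {V : Type} [Fintype V] [DecidableEq V]

/-- `m` encodes a matching of `G` (fixed points are the unmatched vertices) -/
def IsMat (G : SimpleGraph V) (m : V → V) : Prop :=
  (∀ v, m (m v) = v) ∧ ∀ v, m v ≠ v → G.Adj v (m v)

def fx (m : V → V) : Finset V := univ.filter (fun v => m v = v)

theorem mem_fx (m : V → V) (v : V) : v ∈ fx m ↔ m v = v := by simp [fx]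

def MaxMat (G : SimpleGraph V) (m : V → V) : Prop :=
  IsMat G m ∧ ∀ m', IsMat G m' → (fx m).card ≤ (fx m').card

theorem exists_max (G : SimpleGraph V) : ∃ m, MaxMat G m := by
  classical
  obtain ⟨m, hm, hmin⟩ := Finset.exists_min_image (univ.filter (fun m : V → V => IsMat G m))
    (fun m => (fx m).card) ⟨id, by rw [mem_filter]; exact ⟨mem_univ _, fun _ => rfl, fun v hv => absurd rfl hv⟩⟩
  refine ⟨m, (mem_filter.mp hm).2, fun m' hm' => hmin m' (by simp [hm'])⟩

/-- match `u` with `s`, freeing `m s` -/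
def sw (m : V → V) (u s : V) : V → V := fun v =>
  if v = u then s else if v = s then u else if v = m s then v else m v

section
variable {G : SimpleGraph V} {m : V → V}

theorem sw_isMat (hm : IsMat G m) {u s : V} (hu : m u = u) (hs : m s ≠ s) (ha : G.Adj u s) :
    IsMat G (sw m u s) := by
  have hus : s ≠ u := ha.ne'
  have h1 : m s ≠ u := by
    intro h; apply hus; rw [← hm.1 s, h, hu]
  constructor
  · intro v
    by_cases h2 : v = u
    · subst h2; simp [sw, hus]
    by_cases h3 : v = s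
    · subst h3; simp [sw, h2]
    by_cases h4 : v = m s
    · subst h4; simp [sw, h2, h3]
    have h5 : sw m u s v = m v := by simp [sw, h2, h3, h4]
    have h6 : m v ≠ u := by intro h; apply h2; rw [← hm.1 v, h, hu]
    have h7 : m v ≠ s := by intro h; apply h4; rw [← h, hm.1]
    have h8 : m v ≠ m s := by intro h; apply h3; rw [← hm.1 v, h, hm.1]
    rw [h5]; simp [sw, h6, h7, h8, hm.1]
  · intro v hv
    by_cases h2 : v = u
    · subst h2; simpa [sw] using ha
    by_cases h3 : v = s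
    · subst h3; simpa [sw, h2] using ha.symm
    by_cases h4 : v = m s
    · exfalso; apply hv; unfold sw; rw [if_neg h2, if_neg h3, if_pos h4]
    have h5 : sw m u s v = m v := by simp [sw, h2, h3, h4]
    rw [h5] at hv ⊢; exact hm.2 v hv

theorem sw_ms (hm : IsMat G m) {u s : V} (hu : m u = u) (hs : m s ≠ s) (ha : G.Adj u s) :
    sw m u s (m s) = m s := by
  have h1 : m s ≠ u := by
    intro h; apply ha.ne'; rw [← hm.1 s, h, hu]
  simp [sw, h1, hs]

theorem sw_other {u s v : V} (h1 : v ≠ u) (h2 : v ≠ s) (h3 : v ≠ m s) : sw m u s v = m v := by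
  simp [sw, h1, h2, h3]

theorem fx_sw (hm : IsMat G m) {u s : V} (hu : m u = u) (hs : m s ≠ s) (ha : G.Adj u s) :
    fx (sw m u s) = insert (m s) ((fx m).erase u) := by
  have hus : s ≠ u := ha.ne'
  ext v
  simp only [mem_fx, mem_insert, mem_erase]
  by_cases h4 : v = m s
  · subst h4; simp [sw_ms hm hu hs ha]
  by_cases h2 : v = u
  · subst h2; simp [sw, hus, h4]
  by_cases h3 : v = s
  · subst h3; simp [sw, h2, h4, Ne.symm h2, hs]
  rw [sw_other h2 h3 h4]
  simp [h4, h2]

theorem sw_max (hm : MaxMat G m) {u s : V} (hu : m u = u) (hs : m s ≠ s) (ha : G.Adj u s) :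
    MaxMat G (sw m u s) := by
  refine ⟨sw_isMat hm.1 hu hs ha, fun m' hm' => ?_⟩
  rw [fx_sw hm.1 hu hs ha, card_insert_of_notMem, card_erase_of_mem ((mem_fx _ _).mpr hu)]
  · have h1 := hm.2 m' hm'
    have h2 : 0 < (fx m).card := card_pos.mpr ⟨u, (mem_fx _ _).mpr hu⟩
    omega
  · rw [mem_erase, mem_fx, not_and]
    intro _ h
    rw [hm.1.1] at h
    exact hs h.symm

theorem max_indep (hm : MaxMat G m) {u u' : V} (hu : m u = u) (hu' : m u' = u') :
    ¬ G.Adj u u' := by
  intro ha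
  have hne : u ≠ u' := ha.ne
  let m' : V → V := fun v => if v = u then u' else if v = u' then u else m v
  have h1 : IsMat G m' := by
    constructor
    · intro v
      by_cases h2 : v = u
      · subst h2; simp [m', hne.symm]
      by_cases h3 : v = u'
      · subst h3; simp [m', h2]
      have h5 : m' v = m v := by simp [m', h2, h3]
      have h6 : m v ≠ u := by intro h; apply h2; rw [← hm.1.1 v, h, hu]
      have h7 : m v ≠ u' := by intro h; apply h3; rw [← hm.1.1 v, h, hu']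
      rw [h5]; simp [m', h6, h7, hm.1.1]
    · intro v hv
      by_cases h2 : v = u
      · subst h2; simpa [m'] using ha
      by_cases h3 : v = u'
      · subst h3; simpa [m', h2] using ha.symm
      have h5 : m' v = m v := by simp [m', h2, h3]
      rw [h5] at hv ⊢; exact hm.1.2 v hv
  have h2 : fx m' ⊆ (fx m).erase u := by
    intro v hv
    rw [mem_fx] at hv
    rw [mem_erase, mem_fx]
    by_cases h2 : v = u
    · subst h2; simp [m', hne.symm] at hv
    by_cases h3 : v = u'
    · subst h3; simp [m', h2, hne] at hv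
    have h5 : m' v = m v := by simp [m', h2, h3]
    exact ⟨h2, by rw [← h5]; exact hv⟩
  have h3 := card_le_card h2
  rw [card_erase_of_mem ((mem_fx _ _).mpr hu)] at h3
  have h4 := hm.2 m' h1
  have h5 : 0 < (fx m).card := card_pos.mpr ⟨u, (mem_fx _ _).mpr hu⟩
  omega

/-- no augmenting path of length three -/
theorem aug3 (hm : MaxMat G m) {u u' p : V} (hu : m u = u) (hu' : m u' = u') (hne : u ≠ u')
    (hp : m p ≠ p) (ha : G.Adj u p) : ¬ G.Adj u' (m p) := by
  intro ha'
  have h1 := sw_max hm hu hp ha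
  have h2 := sw_ms hm.1 hu hp ha
  have h3 : u' ≠ p := by rintro rfl; exact hp hu'
  have h4 : u' ≠ m p := ha'.ne
  have h5 : sw m u p u' = u' := by rw [sw_other hne.symm h3 h4, hu']
  exact max_indep h1 h5 h2 ha'

/-- free a leaf of a star -/
theorem free_leaf (hm : MaxMat G m) {u s w : V} (hu : m u = u) (hs : m s ≠ s) (ha : G.Adj u s)
    (hw : w = u ∨ w = m s) :
    ∃ m1, MaxMat G m1 ∧ m1 w = w ∧ ∀ v, v ≠ u → v ≠ s → v ≠ m s → m1 v = m v := by
  rcases hw with rfl | rfl
  · exact ⟨m, hm, hu, fun _ _ _ _ => rfl⟩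
  · exact ⟨sw m u s, sw_max hm hu hs ha, sw_ms hm.1 hu hs ha, fun v h1 h2 h3 => sw_other h1 h2 h3⟩

/-- free the partner of a vertex adjacent to a leaf -/
theorem free_mo (hm : MaxMat G m) {u s w q : V} (hu : m u = u) (hs : m s ≠ s) (ha : G.Adj u s)
    (hw : w = u ∨ w = m s) (hq : m q ≠ q) (hq1 : q ≠ u) (hq2 : q ≠ s) (hq3 : q ≠ m s)
    (hwq : G.Adj w q) :
    ∃ m1, MaxMat G m1 ∧ m1 (m q) = m q ∧
      ∀ v, v ≠ u → v ≠ s → v ≠ m s → v ≠ q → v ≠ m q → m1 v = m v := by
  obtain ⟨m1, h1, h2, h3⟩ := free_leaf hm hu hs ha hw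
  have h4 : m1 q = m q := h3 q hq1 hq2 hq3
  have h5 : m1 q ≠ q := by rw [h4]; exact hq
  refine ⟨sw m1 w q, sw_max h1 h2 h5 hwq, ?_, ?_⟩
  · have := sw_ms h1.1 h2 h5 hwq
    rwa [h4] at this
  · intro v k1 k2 k3 k4 k5
    rw [sw_other _ k4 (by rw [h4]; exact k5)]
    · exact h3 v k1 k2 k3
    · rcases hw with rfl | rfl
      · exact k1
      · exact k3

end

/-- valid transversal dominating the unmatched vertices -/
structure VT (G : SimpleGraph V) (m : V → V) (T : Finset V) : Prop where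
  h1 : ∀ s ∈ T, m s ≠ s
  h2 : ∀ s ∈ T, m s ∉ T
  h3 : ∀ u, m u = u → ∃ s ∈ T, G.Adj u s

def Lf (m : V → V) (T : Finset V) : Finset V := univ.filter (fun v => v ∉ T ∧ (m v = v ∨ m v ∈ T))
def Mo (m : V → V) (T : Finset V) : Finset V := univ.filter (fun v => v ∉ T ∧ m v ≠ v ∧ m v ∉ T)

theorem mem_Lf (m : V → V) (T : Finset V) (v : V) : v ∈ Lf m T ↔ v ∉ T ∧ (m v = v ∨ m v ∈ T) := by
  simp [Lf]
theorem mem_Mo (m : V → V) (T : Finset V) (v : V) : v ∈ Mo m T ↔ v ∉ T ∧ m v ≠ v ∧ m v ∉ T := by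
  simp [Mo]

theorem compl_TMo (m : V → V) (T : Finset V) : (T ∪ Mo m T)ᶜ = Lf m T := by
  ext v
  simp only [mem_compl, mem_union, mem_Mo, mem_Lf]
  tauto

theorem card_TML (m : V → V) (T : Finset V) :
    T.card + (Mo m T).card + (Lf m T).card = Fintype.card V := by
  have h1 : Disjoint T (Mo m T) := by
    rw [disjoint_left]; intro v hv hv'
    exact ((mem_Mo _ _ _).mp hv').1 hv
  rw [← compl_TMo, ← card_union_of_disjoint h1, card_add_card_compl]

section
variable {G : SimpleGraph V} {m : V → V} {T : Finset V}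

theorem leaf_nb (hm : IsMat G m) (hT : VT G m T) (w : V) (hw : w ∈ Lf m T) :
    ∃ s ∈ T, G.Adj w s := by
  rw [mem_Lf] at hw
  rcases hw.2 with h | h
  · exact hT.h3 w h
  · refine ⟨m w, h, hm.2 w ?_⟩
    intro h'; rw [h'] at h; exact hw.1 h

theorem bound_R (A : ℕ) (hA : Cnd G A) (hm : IsMat G m) (hT : VT G m T) :
    2 * A + (filter (fun w => 2 ≤ (nbs G T w).card) (Lf m T)).card ≤ Fintype.card V + T.card := by
  have h1 := hA T (Mo m T) m (by
    intro v hv
    rw [mem_Mo] at hv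
    refine ⟨?_, hm.2 v hv.2.1, hm.1 v⟩
    rw [mem_Mo, hm.1]
    exact ⟨hv.2.2, hv.2.1.symm, hv.1⟩)
  rw [compl_TMo] at h1
  have h2 : ∑ w ∈ Lf m T, (2 - (nbs G T w).card) +
      (filter (fun w => 2 ≤ (nbs G T w).card) (Lf m T)).card ≤ (Lf m T).card := by
    rw [card_filter, ← sum_add_distrib, card_eq_sum_ones]
    apply sum_le_sum
    intro w hw
    obtain ⟨s, hs, has⟩ := leaf_nb hm hT w hw
    have h3 : 0 < (nbs G T w).card := card_pos.mpr ⟨s, (mem_nbs _ _ _ _).mpr ⟨hs, has⟩⟩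
    split_ifs <;> omega
  have h3 := card_TML m T
  omega

theorem card_Lf (hm : IsMat G m) (hT : VT G m T) : (Lf m T).card = (fx m).card + T.card := by
  have h1 : Lf m T = fx m ∪ T.image m := by
    ext v
    rw [mem_Lf, mem_union, mem_fx, mem_image]
    constructor
    · rintro ⟨h1, h2 | h2⟩
      · left; exact h2
      · right; exact ⟨m v, h2, hm.1 v⟩
    · rintro (h | ⟨s, hs, rfl⟩)
      · exact ⟨fun h' => hT.h1 v h' h, Or.inl h⟩
      · exact ⟨hT.h2 s hs, Or.inr (by rw [hm.1]; exact hs)⟩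
  have h2 : Disjoint (fx m) (T.image m) := by
    rw [disjoint_left]; intro v hv hv'
    rw [mem_image] at hv'
    obtain ⟨s, hs, rfl⟩ := hv'
    rw [mem_fx, hm.1] at hv
    exact hT.h1 s hs hv.symm
  rw [h1, card_union_of_disjoint h2, card_image_of_injective]
  intro x y hxy
  rw [← hm.1 x, ← hm.1 y, hxy]

theorem exists_VT (hm : MaxMat G m) (hδ : ∀ v, ∃ w, G.Adj v w) :
    ∃ T, VT G m T ∧ T.card ≤ (fx m).card := by
  choose φ hφ using hδ
  have hfix : ∀ u, m u = u → m (φ u) ≠ φ u := fun u hu h => max_indep hm hu h (hφ u)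
  refine ⟨(fx m).image φ, ⟨?_, ?_, ?_⟩, card_image_le⟩
  · intro s hs
    rw [mem_image] at hs
    obtain ⟨u, hu, rfl⟩ := hs
    exact hfix u ((mem_fx _ _).mp hu)
  · intro s hs hs'
    rw [mem_image] at hs hs'
    obtain ⟨u, hu, rfl⟩ := hs
    obtain ⟨u', hu', h⟩ := hs'
    rw [mem_fx] at hu hu'
    have hne : u ≠ u' := by
      rintro rfl
      exact hfix u hu h.symm
    have := aug3 hm hu hu' hne (hfix u hu) (hφ u)
    rw [← h] at this
    exact this (hφ u')
  · intro u hu
    exact ⟨φ u, mem_image_of_mem _ ((mem_fx _ _).mpr hu), hφ u⟩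

end

/-- the star bound -/
theorem star_bound (G : SimpleGraph V) (A : ℕ) (hA : Cnd G A) (hδ : ∀ v, ∃ w, G.Adj v w) :
    3 * A ≤ 2 * Fintype.card V := by
  obtain ⟨m, hm⟩ := exists_max G
  obtain ⟨T, hT, hc⟩ := exists_VT hm hδ
  have h1 := bound_R A hA hm.1 hT
  have h2 := card_TML m T
  have h3 := card_Lf hm.1 hT
  omega

end Zk97.OG
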