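import Pool.Agent.Zk97.OG.Warg

set_option autoImplicit false
set_option linter.unusedSectionVars false

namespace Zk97.OG

open Finset

variable {V : Type} [Fintype V] [DecidableEq V]

/-- a good 4-subset of the two neighbourhoods gives a contradiction -/
theorem SL (G : SimpleGraph V) (h10 : Fintype.card V = 10) (hA : Cnd G 5) (hB : Cnd Gᶜ 5)
    {x y : V} (hxy : x ≠ y) (hadj : ¬ G.Adj x y) (hdx : dg G x = 3) (hdy : dg G y = 4)
    (S : Finset V) (hS : S ⊆ nbs G univ x ∪ nbs G univ y) (hS4 : S.card = 4)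
    (hSx : (nbs G univ x \ S).card ≤ 1) (hSy : (nbs G univ y \ S).card ≤ 2)
    (hZ : ∀ z1 z2, z1 ∉ nbs G univ x ∪ nbs G univ y → z2 ∉ nbs G univ x ∪ nbs G univ y →
      z1 ≠ x → z1 ≠ y → z2 ≠ x → z2 ≠ y → (nbs G S z1).card ≤ 1 → (nbs G S z2).card ≤ 1 →
      z1 = z2) : False := by
  classical
  have h1 := hA.S S
  rw [hS4] at h1
  have hx2 : 2 ≤ (nbs G S x).card := by
    have e1 : nbs G univ x ⊆ nbs G S x ∪ (nbs G univ x \ S) := by
      intro t ht
      rw [mem_union, mem_nbs, mem_sdiff]
      by_cases h5 : t ∈ S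
      · left; exact ⟨h5, (mem_nbu _ _ _).mp ht⟩
      · right; exact ⟨ht, h5⟩
    have e2 := card_le_card e1
    have e3 := card_union_le (nbs G S x) (nbs G univ x \ S)
    have e4 : (nbs G univ x).card = 3 := hdx
    omega
  have hy2 : 2 ≤ (nbs G S y).card := by
    have e1 : nbs G univ y ⊆ nbs G S y ∪ (nbs G univ y \ S) := by
      intro t ht
      rw [mem_union, mem_nbs, mem_sdiff]
      by_cases h5 : t ∈ S
      · left; exact ⟨h5, (mem_nbu _ _ _).mp ht⟩
      · right; exact ⟨ht, h5⟩
    have e2 := card_le_card e1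
    have e3 := card_union_le (nbs G S y) (nbs G univ y \ S)
    have e4 : (nbs G univ y).card = 4 := hdy
    omega
  set W := nbs G univ x ∪ nbs G univ y with hW
  have hWc : W.card + (nbs G univ x ∩ nbs G univ y).card = 7 := by
    rw [hW, card_union_add_card_inter]
    have e4 : (nbs G univ x).card = 3 := hdx
    have e5 : (nbs G univ y).card = 4 := hdy
    omega
  have hc3 : (nbs G univ x ∩ nbs G univ y).card ≤ 3 := by
    rw [← hdx]; exact card_le_card inter_subset_left
  have key : ∀ w, w ≠ x → w ≠ y → 4 ≤ (nbs G univ x ∩ nbs G univ y).card + (W ∩ nbs G univ w).card := by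
    intro w hwx hwy
    have := triple_cond G 5 hB x y w hxy (Ne.symm hwx) (Ne.symm hwy)
    rw [← hW] at this
    omega
  have hin : ∀ w ∈ W \ S, 2 ≤ (nbs G S w).card := by
    intro w hw
    by_cases hwx : w = x
    · subst hwx; exact hx2
    by_cases hwy : w = y
    · subst hwy; exact hy2
    have e1 : W ∩ nbs G univ w ⊆ nbs G S w ∪ ((W \ S).erase w) := by
      intro t ht
      rw [mem_inter] at ht
      rw [mem_union, mem_nbs, mem_erase, mem_sdiff]
      have h6 := (mem_nbu _ _ _).mp ht.2
      by_cases h5 : t ∈ S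
      · left; exact ⟨h5, h6⟩
      · right; exact ⟨h6.ne', ht.1, h5⟩
    have e2 := card_le_card e1
    have e3 := card_union_le (nbs G S w) ((W \ S).erase w)
    have e4 := card_erase_of_mem hw
    have e5 := card_sdiff_of_subset hS
    have e6 := key w hwx hwy
    have e7 : 0 < (W \ S).card := card_pos.mpr ⟨w, hw⟩
    omega
  have hout : ∀ w, w ∉ W → w ≠ x → w ≠ y → 1 ≤ (nbs G S w).card := by
    intro w hw hwx hwy
    have e1 : W ∩ nbs G univ w ⊆ nbs G S w ∪ (W \ S) := by
      intro t ht
      rw [mem_inter] at ht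
      rw [mem_union, mem_nbs, mem_sdiff]
      have h6 := (mem_nbu _ _ _).mp ht.2
      by_cases h5 : t ∈ S
      · left; exact ⟨h5, h6⟩
      · right; exact ⟨ht.1, h5⟩
    have e2 := card_le_card e1
    have e3 := card_union_le (nbs G S w) (W \ S)
    have e5 := card_sdiff_of_subset hS
    have e6 := key w hwx hwy
    omega
  have hall : ∀ w ∈ Sᶜ, (nbs G S w).card ≤ 1 → w ∉ W ∧ w ≠ x ∧ w ≠ y := by
    intro w hw h2
    rw [mem_compl] at hw
    refine ⟨fun h3 => ?_, ?_, ?_⟩
    · have := hin w (mem_sdiff.mpr ⟨h3, hw⟩)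
      omega
    · rintro rfl; omega
    · rintro rfl; omega
  have h2 : ∑ w ∈ Sᶜ, (2 - (nbs G S w).card) ≤ ∑ w ∈ Sᶜ, (if (nbs G S w).card ≤ 1 then 1 else 0) := by
    apply sum_le_sum
    intro w hw
    by_cases h3 : (nbs G S w).card ≤ 1
    · obtain ⟨h4, h5, h6⟩ := hall w hw h3
      have := hout w h4 h5 h6
      rw [if_pos h3]
      omega
    · rw [if_neg h3]; omega
  rw [← card_filter] at h2
  have h3 : (filter (fun w => (nbs G S w).card ≤ 1) Sᶜ).card ≤ 1 := by
    rw [card_le_one]
    intro a ha b hb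
    rw [mem_filter] at ha hb
    obtain ⟨a1, a2, a3⟩ := hall a ha.1 ha.2
    obtain ⟨b1, b2, b3⟩ := hall b hb.1 hb.2
    exact hZ a b a1 b1 a2 a3 b2 b3 ha.2 hb.2
  omega

theorem E3a (G : SimpleGraph V) (h10 : Fintype.card V = 10) (hA : Cnd G 5) (hB : Cnd Gᶜ 5)
    {x y : V} (hxy : x ≠ y) (hadj : ¬ G.Adj x y) (hdx : dg G x = 3) (hdy : dg G y = 4)
    (hc : (nbs G univ x ∩ nbs G univ y).card ≤ 2) : False := by
  classical
  set Nx := nbs G univ x with hNx
  set Ny := nbs G univ y with hNy
  have e4 : Nx.card = 3 := hdx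
  have e5 : Ny.card = 4 := hdy
  have hWc := card_union_add_card_inter Nx Ny
  have hxW : x ∉ Nx ∪ Ny := by
    rw [mem_union, not_or]
    refine ⟨fun h => ?_, fun h => ?_⟩
    · rw [hNx, mem_nbu] at h; exact h.ne rfl
    · rw [hNy, mem_nbu] at h; exact hadj h.symm
  have hyW : y ∉ Nx ∪ Ny := by
    rw [mem_union, not_or]
    refine ⟨fun h => ?_, fun h => ?_⟩
    · rw [hNx, mem_nbu] at h; exact hadj h
    · rw [hNy, mem_nbu] at h; exact h.ne rfl
  -- the remaining vertices
  set Z := (insert x (insert y (Nx ∪ Ny)))ᶜ with hZdef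
  have hZc : Z.card + 2 + (Nx ∪ Ny).card = 10 := by
    have h1 : (insert x (insert y (Nx ∪ Ny))).card = (Nx ∪ Ny).card + 2 := by
      rw [card_insert_of_notMem, card_insert_of_notMem hyW]
      rw [mem_insert, not_or]; exact ⟨hxy, hxW⟩
    have h2 := card_add_card_compl (insert x (insert y (Nx ∪ Ny)))
    rw [h10, ← hZdef] at h2
    omega
  have hmemZ : ∀ z, z ∉ Nx ∪ Ny → z ≠ x → z ≠ y → z ∈ Z := by
    intro z h1 h2 h3
    rw [hZdef, mem_compl, mem_insert, mem_insert]
    push Not
    exact ⟨h2, h3, h1⟩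
  have hZm : ∀ z ∈ Z, z ∉ Nx ∪ Ny ∧ z ≠ x ∧ z ≠ y := by
    intro z hz
    rw [hZdef, mem_compl, mem_insert, mem_insert] at hz
    push Not at hz
    exact ⟨hz.2.2, hz.1, hz.2.1⟩
  have key : ∀ w, w ≠ x → w ≠ y → 4 ≤ (Nx ∩ Ny).card + ((Nx ∪ Ny) ∩ nbs G univ w).card := by
    intro w hwx hwy
    have := triple_cond G 5 hB x y w hxy (Ne.symm hwx) (Ne.symm hwy)
    rw [← hNx, ← hNy] at this
    omega
  have hsd : (Ny \ Nx).card + (Nx ∩ Ny).card = 4 := by
    have := card_sdiff_add_card_inter Ny Nx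
    rw [inter_comm] at this; omega
  have hcases : (Nx ∩ Ny).card = 0 ∨ (Nx ∩ Ny).card = 1 ∨ (Nx ∩ Ny).card = 2 := by omega
  rcases hcases with hc0 | hc1 | hc2
  · -- disjoint neighbourhoods
    obtain ⟨a, ha⟩ : Nx.Nonempty := card_pos.mp (by omega)
    obtain ⟨D, hD, hDc⟩ := exists_subset_card_eq (show 2 ≤ Ny.card by omega)
    have hdisj : Disjoint Nx Ny := by
      rw [disjoint_iff_inter_eq_empty]; exact card_eq_zero.mp hc0
    have haD : a ∉ D := fun h => (disjoint_left.mp hdisj ha) (hD h)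
    have hsub : insert a D ⊆ Nx ∪ Ny := by
      intro t ht
      rw [mem_insert] at ht
      rcases ht with rfl | ht
      · exact mem_union_left _ ha
      · exact mem_union_right _ (hD ht)
    have hc3 : (insert a D).card = 3 := by rw [card_insert_of_notMem haD, hDc]
    apply SL G h10 hA hB hxy hadj hdx hdy ((Nx ∪ Ny) \ insert a D) sdiff_subset
    · rw [card_sdiff_of_subset hsub]; omega
    · have : Nx \ ((Nx ∪ Ny) \ insert a D) ⊆ {a} := by
        intro t ht
        simp only [mem_sdiff, mem_union, mem_insert, not_and, not_not] at ht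
        rw [mem_singleton]
        rcases ht.2 (Or.inl ht.1) with h | h
        · exact h
        · exact absurd (hD h) (disjoint_left.mp hdisj ht.1)
      exact (card_le_card this).trans (card_singleton _).le
    · have : Ny \ ((Nx ∪ Ny) \ insert a D) ⊆ D := by
        intro t ht
        simp only [mem_sdiff, mem_union, mem_insert, not_and, not_not] at ht
        rcases ht.2 (Or.inr ht.1) with h | h
        · subst h; exact absurd ht.1 (disjoint_left.mp hdisj ha)
        · exact h
      exact (card_le_card this).trans hDc.le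
    · intro z1 z2 h1 h2 h3 h4 h5 h6 _ _
      have hZ1 : Z.card ≤ 1 := by omega
      rw [card_le_one] at hZ1
      exact hZ1 z1 (hmemZ z1 h1 h3 h4) z2 (hmemZ z2 h2 h5 h6)
  · -- one common neighbour
    have hZ2 : Z.card = 2 := by omega
    obtain ⟨z1, z2, hz12, hZe⟩ := card_eq_two.mp hZ2
    have hz1 : z1 ∈ Z := by rw [hZe]; simp
    obtain ⟨q1, q2, q3⟩ := hZm z1 hz1
    have hk1 := key z1 q2 q3
    have hv : ∃ v ∈ Nx ∪ Ny, 3 ≤ (((Nx ∪ Ny).erase v) ∩ nbs G univ z1).card := by
      by_cases h4 : 4 ≤ ((Nx ∪ Ny) ∩ nbs G univ z1).card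
      · obtain ⟨v, hv⟩ : (Nx ∪ Ny).Nonempty := card_pos.mp (by omega)
        refine ⟨v, hv, ?_⟩
        rw [erase_inter]
        have := pred_card_le_card_erase (s := (Nx ∪ Ny) ∩ nbs G univ z1) (a := v)
        omega
      · have h5 : ((Nx ∪ Ny) \ nbs G univ z1).Nonempty := by
          apply card_pos.mp
          have := card_sdiff_add_card_inter (Nx ∪ Ny) (nbs G univ z1)
          omega
        obtain ⟨v, hv⟩ := h5
        rw [mem_sdiff] at hv
        refine ⟨v, hv.1, ?_⟩
        rw [erase_inter, erase_eq_of_notMem]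
        · omega
        · intro h6; exact hv.2 (mem_inter.mp h6).2
    obtain ⟨v, hvW, hv3⟩ := hv
    obtain ⟨v', hv'⟩ : ((Ny \ Nx).erase v).Nonempty := by
      apply card_pos.mp
      have := pred_card_le_card_erase (s := Ny \ Nx) (a := v)
      omega
    rw [mem_erase, mem_sdiff] at hv'
    have hv'W : v' ∈ (Nx ∪ Ny).erase v := by
      rw [mem_erase, mem_union]; exact ⟨hv'.1, Or.inr hv'.2.1⟩
    apply SL G h10 hA hB hxy hadj hdx hdy (((Nx ∪ Ny).erase v).erase v')
    · exact (erase_subset _ _).trans (erase_subset _ _)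
    · rw [card_erase_of_mem hv'W, card_erase_of_mem hvW]; omega
    · have : Nx \ (((Nx ∪ Ny).erase v).erase v') ⊆ {v} := by
        intro t ht
        simp only [mem_sdiff, mem_union, mem_erase, not_and] at ht
        rw [mem_singleton]
        by_contra htv
        by_cases h1 : t = v'
        · subst h1; exact hv'.2.2 ht.1
        · exact ht.2 h1 htv (Or.inl ht.1)
      exact (card_le_card this).trans (card_singleton _).le
    · have : Ny \ (((Nx ∪ Ny).erase v).erase v') ⊆ {v, v'} := by
        intro t ht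
        simp only [mem_sdiff, mem_union, mem_erase, not_and] at ht
        rw [mem_insert, mem_singleton]
        by_contra hcon
        push Not at hcon
        exact ht.2 hcon.2 hcon.1 (Or.inr ht.1)
      exact (card_le_card this).trans card_le_two
    · have hgood : 2 ≤ (nbs G (((Nx ∪ Ny).erase v).erase v') z1).card := by
        rw [nbs_eq, inter_comm, erase_inter]
        have := pred_card_le_card_erase (s := (Nx ∪ Ny).erase v ∩ nbs G univ z1) (a := v')
        omega
      intro a b h1 h2 h3 h4 h5 h6 h7 h8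
      have ha := hmemZ a h1 h3 h4
      have hb := hmemZ b h2 h5 h6
      rw [hZe, mem_insert, mem_singleton] at ha hb
      rcases ha with rfl | rfl
      · omega
      · rcases hb with rfl | rfl
        · omega
        · rfl
  · -- two common neighbours
    have hZ3 : Z.card = 3 := by omega
    have hW5 : (Nx ∪ Ny).card = 5 := by omega
    have hex : ∃ v ∈ Nx ∪ Ny,
        (Z.filter (fun z => (nbs G ((Nx ∪ Ny).erase v) z).card ≤ 1)).card ≤ 1 := by
      by_contra hcon
      push Not at hcon
      have h1 : (Nx ∪ Ny).card * 2 ≤ ∑ v ∈ Nx ∪ Ny,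
          (Z.filter (fun z => (nbs G ((Nx ∪ Ny).erase v) z).card ≤ 1)).card := by
        rw [← smul_eq_mul]
        exact card_nsmul_le_sum _ _ _ (fun v hv => hcon v hv)
      have h2 : ∑ v ∈ Nx ∪ Ny, (Z.filter (fun z => (nbs G ((Nx ∪ Ny).erase v) z).card ≤ 1)).card =
          ∑ z ∈ Z, ((Nx ∪ Ny).filter (fun v => (nbs G ((Nx ∪ Ny).erase v) z).card ≤ 1)).card := by
        simp_rw [card_filter]
        exact sum_comm
      have h3 : ∀ z ∈ Z, ((Nx ∪ Ny).filter (fun v => (nbs G ((Nx ∪ Ny).erase v) z).card ≤ 1)).card ≤ 2 := by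
        intro z hz
        obtain ⟨q1, q2, q3⟩ := hZm z hz
        have hk := key z q2 q3
        by_cases h4 : ((Nx ∪ Ny) ∩ nbs G univ z).card ≤ 2
        · refine le_trans (card_le_card ?_) h4
          intro v hv
          rw [mem_filter] at hv
          rw [mem_inter]
          refine ⟨hv.1, ?_⟩
          by_contra h5
          have h6 : (nbs G ((Nx ∪ Ny).erase v) z).card = ((Nx ∪ Ny) ∩ nbs G univ z).card := by
            rw [nbs_eq, inter_comm, erase_inter, erase_eq_of_notMem]
            intro h7; exact h5 (mem_inter.mp h7).2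
          omega
        · have h5 : (Nx ∪ Ny).filter (fun v => (nbs G ((Nx ∪ Ny).erase v) z).card ≤ 1) = ∅ := by
            rw [filter_eq_empty_iff]
            intro v _
            rw [nbs_eq, inter_comm, erase_inter]
            have := pred_card_le_card_erase (s := (Nx ∪ Ny) ∩ nbs G univ z) (a := v)
            omega
          rw [h5]; simp
      have h4 : ∑ z ∈ Z, ((Nx ∪ Ny).filter (fun v => (nbs G ((Nx ∪ Ny).erase v) z).card ≤ 1)).card ≤
          Z.card * 2 := by
        rw [← smul_eq_mul]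
        exact sum_le_card_nsmul _ _ _ h3
      omega
    obtain ⟨v, hvW, hv1⟩ := hex
    apply SL G h10 hA hB hxy hadj hdx hdy ((Nx ∪ Ny).erase v) (erase_subset _ _)
    · rw [card_erase_of_mem hvW]; omega
    · have : Nx \ ((Nx ∪ Ny).erase v) ⊆ {v} := by
        intro t ht
        simp only [mem_sdiff, mem_union, mem_erase, not_and] at ht
        rw [mem_singleton]
        by_contra htv
        exact ht.2 htv (Or.inl ht.1)
      exact (card_le_card this).trans (card_singleton _).le
    · have : Ny \ ((Nx ∪ Ny).erase v) ⊆ {v} := by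
        intro t ht
        simp only [mem_sdiff, mem_union, mem_erase, not_and] at ht
        rw [mem_singleton]
        by_contra htv
        exact ht.2 htv (Or.inr ht.1)
      exact (card_le_card this).trans (by rw [card_singleton]; omega)
    · intro a b h1 h2 h3 h4 h5 h6 h7 h8
      rw [card_le_one] at hv1
      exact hv1 a (mem_filter.mpr ⟨hmemZ a h1 h3 h4, h7⟩) b (mem_filter.mpr ⟨hmemZ b h2 h5 h6, h8⟩)

/-- `n = 10`: a vertex of degree 3 and another of degree at most 4 -/
theorem E3 (G : SimpleGraph V) (h10 : Fintype.card V = 10) (hA : Cnd G 5) (hB : Cnd Gᶜ 5)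
    (hδ : ∀ v, 1 ≤ dg G v) {x y p : V} (hxy : x ≠ y) (hdx : dg G x = 3) (hdy : dg G y ≤ 4)
    (hp : G.Adj x p) : G.Adj y p := by
  have hpair := pair_cond G 5 hB x y hxy
  have hadj : ¬ G.Adj x y := by
    intro h
    have := hpair.2 h
    omega
  by_contra hyp
  have hc : (nbs G univ x ∩ nbs G univ y).card ≤ 2 := by
    have h1 : nbs G univ x ∩ nbs G univ y ⊆ (nbs G univ x).erase p := by
      intro t ht
      rw [mem_inter, mem_nbu, mem_nbu] at ht
      rw [mem_erase, mem_nbu]
      refine ⟨?_, ht.1⟩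
      rintro rfl; exact hyp ht.2
    have h2 := card_le_card h1
    rw [card_erase_of_mem ((mem_nbu _ _ _).mpr hp)] at h2
    have h3 : (nbs G univ x).card = 3 := hdx
    omega
  have h1 := W1 G 5 5 hA hB (by norm_num) hδ hxy (by omega)
  have hdy4 : dg G y = 4 := by omega
  exact E3a G h10 hA hB hxy hadj hdx hdy4 hc

/-- `n = 10`: a vertex of degree at most 2 forces the others to have degree at least 5 -/
theorem E2 (G : SimpleGraph V) (hA : Cnd G 5) (hB : Cnd Gᶜ 5)
    (hδ : ∀ v, 1 ≤ dg G v) {x y : V} (hxy : x ≠ y) (hdx : dg G x ≤ 2) : 5 ≤ dg G y := by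
  have hpair := pair_cond G 5 hB x y hxy
  by_cases hadj : G.Adj x y
  · have := hpair.2 hadj
    omega
  have hc : (nbs G univ x ∩ nbs G univ y).card ≤ 2 :=
    (card_le_card inter_subset_left).trans hdx
  have h1 := W1 G 5 5 hA hB (by norm_num) hδ hxy (by omega)
  omega

end Zk97.OG
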