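import Pool.Agent.Zk97.OG.Cnd

set_option autoImplicit false
set_option linter.unusedSectionVars false

namespace Zk97.OG

open Finset

variable {V : Type} [Fintype V] [DecidableEq V]

/-- the two neighbourhoods together dominate twice -/
theorem W1 (G : SimpleGraph V) (A B : ℕ) (hA : Cnd G A) (hB : Cnd Gᶜ B) (hB4 : 4 ≤ B)
    (hδ : ∀ v, 1 ≤ dg G v) {x y : V} (hxy : x ≠ y)
    (hc : (nbs G univ x ∩ nbs G univ y).card + 8 ≤ 2 * B) :
    A + 2 * B ≤ dg G x + dg G y + 8 := by
  classical
  set Nx := nbs G univ x with hNx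
  set Ny := nbs G univ y with hNy
  have hdx : Nx.card = dg G x := rfl
  have hdy : Ny.card = dg G y := rfl
  have hpair := (pair_cond G B hB x y hxy).1
  have hWc := card_union_add_card_inter Nx Ny
  have h1x := hδ x
  have h1y := hδ y
  obtain ⟨Kx, hKx, hKxc⟩ := exists_subset_card_eq (show min 2 (dg G x) ≤ Nx.card by omega)
  obtain ⟨Ky, hKy, hKyc⟩ := exists_subset_card_eq (show min 2 (dg G y) ≤ Ny.card by omega)
  have hKc := card_union_le Kx Ky
  obtain ⟨S, hS1, hS2, hSc⟩ := exists_subsuperset_card_eq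
    (show Kx ∪ Ky ⊆ Nx ∪ Ny from union_subset_union hKx hKy)
    (show (Kx ∪ Ky).card ≤ dg G x + dg G y + 8 - 2 * B by omega)
    (show dg G x + dg G y + 8 - 2 * B ≤ (Nx ∪ Ny).card by omega)
  have h1 := hA.S S
  have h2 : ∑ w ∈ Sᶜ, (2 - (nbs G S w).card) ≤ ∑ w ∈ Sᶜ,
      ((if w = x then 2 - min 2 (dg G x) else 0) + (if w = y then 2 - min 2 (dg G y) else 0)) := by
    apply sum_le_sum
    intro w hw
    by_cases hwx : w = x
    · subst hwx
      have h3 : Kx ⊆ nbs G S w := by
        intro t ht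
        rw [mem_nbs]
        exact ⟨hS1 (mem_union_left _ ht), (mem_nbu _ _ _).mp (hKx ht)⟩
      have h4 := card_le_card h3
      simp only [if_true]
      omega
    by_cases hwy : w = y
    · subst hwy
      have h3 : Ky ⊆ nbs G S w := by
        intro t ht
        rw [mem_nbs]
        exact ⟨hS1 (mem_union_right _ ht), (mem_nbu _ _ _).mp (hKy ht)⟩
      have h4 := card_le_card h3
      simp only [if_true]
      omega
    have h3 := triple_cond G B hB x y w hxy (Ne.symm hwx) (Ne.symm hwy)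
    rw [← hNx, ← hNy] at h3
    have h4 : (Nx ∪ Ny) ∩ nbs G univ w ⊆ nbs G S w ∪ ((Nx ∪ Ny) \ S) := by
      intro t ht
      rw [mem_inter] at ht
      rw [mem_union, mem_nbs, mem_sdiff]
      by_cases h5 : t ∈ S
      · left; exact ⟨h5, (mem_nbu _ _ _).mp ht.2⟩
      · right; exact ⟨ht.1, h5⟩
    have h5 := card_le_card h4
    have h6 := card_union_le (nbs G S w) ((Nx ∪ Ny) \ S)
    rw [card_sdiff_of_subset hS2] at h6
    simp only [hwx, hwy, if_false]
    omega
  rw [sum_add_distrib, sum_ite_eq', sum_ite_eq'] at h2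
  have h3 : (if x ∈ Sᶜ then 2 - min 2 (dg G x) else 0) ≤ 2 - min 2 (dg G x) := by
    split_ifs <;> omega
  have h4 : (if y ∈ Sᶜ then 2 - min 2 (dg G y) else 0) ≤ 2 - min 2 (dg G y) := by
    split_ifs <;> omega
  omega

theorem W2 (G : SimpleGraph V) (A B : ℕ) (hA : Cnd G A) (hB : Cnd Gᶜ B) (hB5 : 5 ≤ B)
    (hδ : ∀ v, 1 ≤ dg G v) (hn : 4 ≤ Fintype.card V) (x : V) :
    ∃ y1 y2, y1 ≠ y2 ∧ y1 ≠ x ∧ y2 ≠ x ∧ A + 2 * B ≤ dg G x + dg G y1 + 8 ∧
      A + 2 * B ≤ dg G x + dg G y2 + 8 := by
  classical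
  by_contra hcon
  push Not at hcon
  let Yb := (univ.erase x).filter (fun y => A + 2 * B ≤ dg G x + dg G y + 8)
  have hYb : Yb.card ≤ 1 := by
    rw [card_le_one]
    intro a ha b hb
    by_contra hab
    simp only [Yb, mem_filter, mem_erase, mem_univ, and_true] at ha hb
    have := hcon a b hab ha.1 hb.1 ha.2
    omega
  have h1 : 1 < (univ \ insert x Yb).card := by
    rw [card_univ_sdiff]
    have := card_insert_le x Yb
    omega
  obtain ⟨z1, hz1, z2, hz2, hz12⟩ := one_lt_card.mp h1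
  have hz : ∀ z, z ∉ insert x Yb → dg G x + dg G z + 8 < A + 2 * B ∧
      2 * B < (nbs G univ x ∩ nbs G univ z).card + 8 := by
    intro z hz
    rw [mem_insert, not_or] at hz
    have h2 : ¬ (A + 2 * B ≤ dg G x + dg G z + 8) := by
      intro h2
      apply hz.2
      simp only [Yb, mem_filter, mem_erase, mem_univ, and_true]
      exact ⟨hz.1, h2⟩
    refine ⟨by omega, ?_⟩
    by_contra h3
    exact h2 (W1 G A B hA hB (by omega) hδ (Ne.symm hz.1) (by omega))
  rw [mem_sdiff] at hz1 hz2
  obtain ⟨a1, a2⟩ := hz z1 hz1.2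
  obtain ⟨b1, b2⟩ := hz z2 hz2.2
  have hcx : (nbs G univ x ∩ nbs G univ z1).card ≤ dg G x := card_le_card inter_subset_left
  obtain ⟨S1, hS1, hS1c⟩ := exists_subset_card_eq
    (show dg G x + 9 - 2 * B ≤ (nbs G univ x).card by unfold dg; omega)
  have h2 := hA.S (S1 ∪ Yb)
  have h3 : ∑ w ∈ (S1 ∪ Yb)ᶜ, (2 - (nbs G (S1 ∪ Yb) w).card) = 0 := by
    apply sum_eq_zero
    intro w hw
    rw [mem_compl, mem_union, not_or] at hw
    have h4 : 2 ≤ (nbs G (S1 ∪ Yb) w).card := by
      by_cases hwx : w = x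
      · subst hwx
        have h5 : S1 ⊆ nbs G (S1 ∪ Yb) w := by
          intro t ht
          rw [mem_nbs]
          exact ⟨mem_union_left _ ht, (mem_nbu _ _ _).mp (hS1 ht)⟩
        have h6 := card_le_card h5
        omega
      · have h5 := (hz w (by rw [mem_insert, not_or]; exact ⟨hwx, hw.2⟩)).2
        have h6 : nbs G univ x ∩ nbs G univ w ⊆ nbs G (S1 ∪ Yb) w ∪ (nbs G univ x \ S1) := by
          intro t ht
          rw [mem_inter] at ht
          rw [mem_union, mem_nbs, mem_sdiff]
          by_cases h7 : t ∈ S1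
          · left; exact ⟨mem_union_left _ h7, (mem_nbu _ _ _).mp ht.2⟩
          · right; exact ⟨ht.1, h7⟩
        have h7 := card_le_card h6
        have h8 := card_union_le (nbs G (S1 ∪ Yb) w) (nbs G univ x \ S1)
        rw [card_sdiff_of_subset hS1] at h8
        have h9 : (nbs G univ x).card = dg G x := rfl
        omega
    omega
  rw [h3] at h2
  have h4 := card_union_le S1 Yb
  have h5 := (pair_cond G B hB z1 z2 hz12).1
  omega

/-- number of 4-subsets weighted by intersection with `N` -/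
theorem cnt4 (E N : Finset V) (hN : N ⊆ E) :
    ∑ Q ∈ powersetCard 4 E, (2 - (4 - (N ∩ Q).card)) ≤
      N.card.choose 3 * (E.card - N.card) + 2 * N.card.choose 4 := by
  classical
  have h1 : ∑ Q ∈ powersetCard 4 E, (2 - (4 - (N ∩ Q).card)) ≤
      ∑ Q ∈ powersetCard 4 E, ((if (N ∩ Q).card = 3 then 1 else 0) +
        2 * (if (N ∩ Q).card = 4 then 1 else 0)) := by
    apply sum_le_sum
    intro Q hQ
    rw [mem_powersetCard] at hQ
    have : (N ∩ Q).card ≤ 4 := by rw [← hQ.2]; exact card_le_card inter_subset_right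
    interval_cases (N ∩ Q).card <;> simp
  refine h1.trans ?_
  rw [sum_add_distrib, ← mul_sum, ← card_filter, ← card_filter]
  apply Nat.add_le_add
  · have h2 : filter (fun Q => (N ∩ Q).card = 3) (powersetCard 4 E) ⊆
        ((powersetCard 3 N) ×ˢ (E \ N)).image (fun p => insert p.2 p.1) := by
      intro Q hQ
      rw [mem_filter, mem_powersetCard] at hQ
      obtain ⟨⟨hQ1, hQ2⟩, hQ3⟩ := hQ
      have h3 : (Q \ N).card = 1 := by
        have := card_sdiff_add_card_inter Q N
        rw [inter_comm] at hQ3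
        omega
      obtain ⟨x, hx⟩ := card_eq_one.mp h3
      have hxQ : x ∈ Q \ N := by rw [hx]; exact mem_singleton_self _
      rw [mem_sdiff] at hxQ
      rw [mem_image]
      refine ⟨(N ∩ Q, x), ?_, ?_⟩
      · rw [mem_product, mem_powersetCard, mem_sdiff]
        exact ⟨⟨inter_subset_left, hQ3⟩, hQ1 hxQ.1, hxQ.2⟩
      · ext t
        simp only [mem_insert, mem_inter]
        constructor
        · rintro (rfl | h)
          · exact hxQ.1
          · exact h.2
        · intro ht
          by_cases htN : t ∈ N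
          · right; exact ⟨htN, ht⟩
          · left
            have : t ∈ Q \ N := mem_sdiff.mpr ⟨ht, htN⟩
            rw [hx] at this
            exact mem_singleton.mp this
    have h3 := (card_le_card h2).trans card_image_le
    rw [card_product, card_powersetCard, card_sdiff_of_subset hN] at h3
    exact h3
  · have h2 : filter (fun Q => (N ∩ Q).card = 4) (powersetCard 4 E) ⊆ powersetCard 4 N := by
      intro Q hQ
      rw [mem_filter, mem_powersetCard] at hQ
      obtain ⟨⟨hQ1, hQ2⟩, hQ3⟩ := hQ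
      rw [mem_powersetCard]
      refine ⟨?_, hQ2⟩
      have h3 : N ∩ Q = Q := eq_of_subset_of_card_le inter_subset_right (by omega)
      rw [← h3]; exact inter_subset_left
    have h3 := card_le_card h2
    rw [card_powersetCard] at h3
    omega

theorem avg0 (G : SimpleGraph V) (B : ℕ) (hB : Cnd Gᶜ B) :
    (Fintype.card V).choose 4 * (2 * B) ≤ (Fintype.card V).choose 4 * 8 +
      ∑ w, ((dg G w).choose 3 * dg Gᶜ w + 2 * (dg G w).choose 4) := by
  classical
  have h1 : ∑ Q ∈ powersetCard 4 (univ : Finset V), 2 * B ≤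
      ∑ Q ∈ powersetCard 4 (univ : Finset V), (8 + ∑ w ∈ Qᶜ, (2 - (nbs Gᶜ Q w).card)) := by
    apply sum_le_sum
    intro Q hQ
    have := hB.S Q
    rw [(mem_powersetCard.mp hQ).2] at this
    omega
  rw [sum_const, card_powersetCard, smul_eq_mul, sum_add_distrib, sum_const, card_powersetCard,
    smul_eq_mul, card_univ] at h1
  refine h1.trans (Nat.add_le_add_left ?_ _)
  rw [sum_comm' (t' := univ) (s' := fun w => powersetCard 4 (univ.erase w))]
  · apply sum_le_sum
    intro w _
    have hN : nbs G univ w ⊆ univ.erase w := by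
      intro t ht
      rw [mem_nbu] at ht
      rw [mem_erase]
      exact ⟨ht.ne', mem_univ _⟩
    have h2 := cnt4 _ _ hN
    have h3 : (univ.erase w).card - (nbs G univ w).card = dg Gᶜ w := by
      have h4 := dg_add G w
      rw [card_erase_of_mem (mem_univ _), card_univ]
      have h5 : (nbs G univ w).card = dg G w := rfl
      omega
    rw [h3] at h2
    refine le_trans (le_of_eq ?_) h2
    apply sum_congr rfl
    intro Q hQ
    rw [mem_powersetCard] at hQ
    have hwQ : w ∉ Q := fun h => (mem_erase.mp (hQ.1 h)).1 rfl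
    rw [nbs_compl_card G Q w hwQ, hQ.2, nbs_eq]
  · intro Q w
    simp only [mem_powersetCard, mem_compl, mem_univ, subset_univ, true_and, and_true]
    constructor
    · rintro ⟨h2, h3⟩
      refine ⟨fun t ht => ?_, h2⟩
      rw [mem_erase]
      exact ⟨fun h => h3 (h ▸ ht), mem_univ _⟩
    · rintro ⟨h2, h3⟩
      exact ⟨h3, fun h => (mem_erase.mp (h2 h)).1 rfl⟩

theorem ch3 (d : ℕ) : (6 : ℤ) * (d.choose 3 : ℤ) = d * (d - 1) * (d - 2) := by
  have h2 : ∀ d : ℕ, (2 : ℤ) * (d.choose 2 : ℤ) = d * (d - 1) := by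
    intro d
    induction d with
    | zero => simp
    | succ d ih =>
      rw [Nat.choose_succ_succ' d 1, Nat.choose_one_right]
      push_cast
      linarith
  induction d with
  | zero => simp
  | succ d ih =>
    rw [Nat.choose_succ_succ' d 2]
    push_cast
    have := h2 d
    linear_combination ih + 3 * this

theorem ch4 (d : ℕ) : (24 : ℤ) * (d.choose 4 : ℤ) = d * (d - 1) * (d - 2) * (d - 3) := by
  induction d with
  | zero => simp
  | succ d ih =>
    rw [Nat.choose_succ_succ' d 3]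
    push_cast
    have := ch3 d
    linear_combination ih + 4 * this

/-- averaged 4-set condition -/
theorem avg (G : SimpleGraph V) (B : ℕ) (hB : Cnd Gᶜ B) (n : ℤ) (hn : n = Fintype.card V) :
    ((B : ℤ) - 4) * (n * (n - 1) * (n - 2) * (n - 3)) ≤
      ∑ w, ((dg G w : ℤ) * (dg G w - 1) * (dg G w - 2) * (2 * (n - 1) - dg G w - 3)) := by
  have h1 := avg0 G B hB
  have h2 : ((Fintype.card V).choose 4 : ℤ) * (2 * B) ≤ ((Fintype.card V).choose 4 : ℤ) * 8 +
      ∑ w, (((dg G w).choose 3 : ℤ) * (dg Gᶜ w : ℤ) + 2 * ((dg G w).choose 4 : ℤ)) := by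
    exact_mod_cast h1
  have h3 : ∀ w, (12 : ℤ) * (((dg G w).choose 3 : ℤ) * (dg Gᶜ w : ℤ) + 2 * ((dg G w).choose 4 : ℤ)) =
      (dg G w : ℤ) * (dg G w - 1) * (dg G w - 2) * (2 * (n - 1) - dg G w - 3) := by
    intro w
    have h4 := ch3 (dg G w)
    have h5 := ch4 (dg G w)
    have h6 : (dg Gᶜ w : ℤ) = n - 1 - dg G w := by
      have := dg_add G w
      rw [hn, ← this]; push_cast; ring
    rw [h6]
    linear_combination 2 * (n - 1 - dg G w) * h4 + h5
  have h4 := ch4 (Fintype.card V)
  rw [← hn] at h4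
  have h5 : (12 : ℤ) * ∑ w, (((dg G w).choose 3 : ℤ) * (dg Gᶜ w : ℤ) + 2 * ((dg G w).choose 4 : ℤ)) =
      ∑ w, ((dg G w : ℤ) * (dg G w - 1) * (dg G w - 2) * (2 * (n - 1) - dg G w - 3)) := by
    rw [mul_sum]; exact sum_congr rfl fun w _ => h3 w
  rw [← h5, ← h4]
  nlinarith [h2]

end Zk97.OG
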